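import Mathlib

/-!
# Infinite two player games and strategies, for `MP_f38362_gt`
-/

namespace MP_f38362_gt

/-- The list of the first `n` innings of a play in which the first player makes the moves
`a 0, a 1, …` and the second player makes the moves `b 0, b 1, …`, the most recent inning
first. -/
def innings {α β : Type} (a : ℕ → α) (b : ℕ → β) : ℕ → List (α × β)
  | 0 => []
  | n + 1 => (a n, b n) :: innings a b n

/-! In each inning the first player makes a move `a` with `A a` (a legal move) and then the second
player makes a move `b` with `R a b` (a legal answer to `a`). The second player wins the play if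
the sequence of his moves satisfies `W`, otherwise the first player wins. A strategy assigns a
legal move to each finite sequence of previous moves. -/

/-- The first player has a winning strategy. -/
def FirstWins {α β : Type} (A : α → Prop) (R : α → β → Prop) (W : (ℕ → β) → Prop) : Prop :=
  ∃ σ : List (α × β) → α, (∀ h, A (σ h)) ∧
    ∀ (a : ℕ → α) (b : ℕ → β), (∀ n, a n = σ (innings a b n)) → (∀ n, R (a n) (b n)) → ¬ W b

/-- The second player has a winning strategy. -/
def SecondWins {α β : Type} (A : α → Prop) (R : α → β → Prop) (W : (ℕ → β) → Prop) : Prop :=
  ∃ τ : List (α × β) → α → β, (∀ h a, A a → R a (τ h a)) ∧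
    ∀ (a : ℕ → α) (b : ℕ → β), (∀ n, A (a n)) → (∀ n, b n = τ (innings a b n) (a n)) → W b

/-- The game is undetermined: neither player has a winning strategy. -/
def Undetermined {α β : Type} (A : α → Prop) (R : α → β → Prop) (W : (ℕ → β) → Prop) : Prop :=
  ¬ FirstWins A R W ∧ ¬ SecondWins A R W

end MP_f38362_gt
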