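import Mathlib

/-!
# Facts about `ω₁` used in `MP_f38362_gt`

`W` is a well-ordered uncountable type all of whose proper initial segments are countable.
-/

open Set Cardinal

namespace MP_f38362_gt

/-- `ω₁` as a type -/
abbrev W : Type := (Cardinal.aleph 1).ord.ToType

theorem W_countable_Iio (a : W) : (Set.Iio a).Countable := by
  rw [← Cardinal.le_aleph0_iff_set_countable, ← Cardinal.lt_aleph_one_iff]
  have := mk_Iio_lt (α := W) a (by simp)
  simpa using this

theorem mk_W : #W = ℵ₁ := by simp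

theorem W_not_countable : ¬ Countable W := by
  intro h
  have h1 : #W ≤ ℵ₀ := Cardinal.mk_le_aleph0_iff.mpr h
  rw [mk_W] at h1
  exact absurd h1 (not_le.mpr Cardinal.aleph0_lt_aleph_one)

theorem W_countable_Iic (a : W) : (Set.Iic a).Countable := by
  have : Set.Iic a = insert a (Set.Iio a) := by
    ext x; simp [le_iff_eq_or_lt]
  rw [this]
  exact (W_countable_Iio a).insert a

theorem W_bdd {s : Set W} (hs : s.Countable) : ∃ b : W, ∀ a ∈ s, a < b := by
  by_contra hcon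
  push Not at hcon
  apply W_not_countable
  have hcov : (Set.univ : Set W) ⊆ ⋃ a ∈ s, Set.Iic a := by
    intro b _
    obtain ⟨a, ha, hab⟩ := hcon b
    exact Set.mem_biUnion ha hab
  have h2 : (Set.univ : Set W).Countable :=
    (hs.biUnion fun a _ => W_countable_Iic a).mono hcov
  exact Set.countable_univ_iff.mp h2

/-- `δ` is a (nonzero, limit) closure point of `g` -/
def Cl (g : W → W) (δ : W) : Prop :=
  (∃ α, α < δ) ∧ ∀ α < δ, ∃ β < δ, α < β ∧ g α < β

theorem exists_Cl (g : W → W) (α₀ : W) : ∃ δ, α₀ < δ ∧ Cl g δ := by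
  have h1 : ∀ α : W, ∃ b : W, α < b ∧ ∀ γ ≤ α, g γ < b := by
    intro α
    obtain ⟨b, hb⟩ := W_bdd (s := g '' Set.Iic α ∪ {α})
      (((W_countable_Iic α).image g).union (Set.countable_singleton α))
    exact ⟨b, hb α (by simp), fun γ hγ => hb _ (Or.inl ⟨γ, hγ, rfl⟩)⟩
  choose G hG1 hG2 using h1
  let a : ℕ → W := fun n => G^[n] α₀
  have ha : ∀ n, a (n + 1) = G (a n) := fun n => Function.iterate_succ_apply' G n α₀
  obtain ⟨b, hb⟩ := W_bdd (s := Set.range a) (Set.countable_range a)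
  have hne : ({b : W | ∀ n, a n < b} : Set W).Nonempty := ⟨b, fun n => hb _ ⟨n, rfl⟩⟩
  let δ : W := WellFounded.min (wellFounded_lt (α := W)) {b : W | ∀ n, a n < b} hne
  have hδ : ∀ n, a n < δ := WellFounded.min_mem (wellFounded_lt (α := W)) _ hne
  have hδmin : ∀ β < δ, ∃ n, β ≤ a n := by
    intro β hβ
    by_contra hcon
    push Not at hcon
    exact WellFounded.not_lt_min (wellFounded_lt (α := W)) {b : W | ∀ n, a n < b}
      (show β ∈ {b : W | ∀ n, a n < b} from hcon) hβ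
  refine ⟨δ, hδ 0, ⟨α₀, hδ 0⟩, ?_⟩
  intro α hα
  obtain ⟨n, hn⟩ := hδmin α hα
  refine ⟨a (n + 1), hδ (n + 1), ?_, ?_⟩
  · rw [ha]; exact lt_of_le_of_lt hn (hG1 _)
  · rw [ha]; exact hG2 _ _ hn

theorem exists_inj : ∃ f : W → (ℕ → Bool), Function.Injective f := by
  have h : #W ≤ #(ℕ → Bool) := by
    rw [mk_W]
    have : #(ℕ → Bool) = 𝔠 := by simp
    rw [this]
    exact Cardinal.aleph_one_le_continuum
  obtain ⟨f⟩ := h
  exact ⟨f, f.injective⟩

/-- a stationary and co-stationary subset of `ω₁` -/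
theorem exists_split : ∃ E : Set W, (∀ g : W → W, ∃ δ ∈ E, Cl g δ) ∧
    (∀ g : W → W, ∃ δ, δ ∉ E ∧ Cl g δ) := by
  by_contra hcon
  push Not at hcon
  obtain ⟨f, hf⟩ := exists_inj
  have h1 : ∀ n : ℕ, ∃ (g : W → W) (b : Bool), ∀ δ, Cl g δ → f δ n = b := by
    intro n
    by_cases h : ∀ g : W → W, ∃ δ ∈ {α | f α n = true}, Cl g δ
    · obtain ⟨g, hg⟩ := hcon {α | f α n = true} h
      refine ⟨g, true, fun δ hδ => ?_⟩
      by_contra hne
      exact hg δ hne hδ
    · push Not at h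
      obtain ⟨g, hg⟩ := h
      refine ⟨g, false, fun δ hδ => ?_⟩
      by_contra hne
      exact hg δ (by simpa using hne) hδ
  choose g b hgb using h1
  have h2 : ∀ α : W, ∃ c : W, ∀ n, g n α < c := by
    intro α
    obtain ⟨c, hc⟩ := W_bdd (s := Set.range fun n => g n α) (Set.countable_range _)
    exact ⟨c, fun n => hc _ ⟨n, rfl⟩⟩
  choose G hG using h2
  have h3 : ∀ δ, Cl G δ → f δ = b := by
    intro δ hδ
    funext n
    apply hgb n δ
    refine ⟨hδ.1, fun α hα => ?_⟩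
    obtain ⟨β, hβ, h1, h2⟩ := hδ.2 α hα
    exact ⟨β, hβ, h1, (hG α n).trans h2⟩
  have hne : Nonempty W := by
    by_contra h
    rw [not_nonempty_iff] at h
    exact W_not_countable inferInstance
  obtain ⟨δ₁, _, h4⟩ := exists_Cl G hne.some
  obtain ⟨δ₂, h5, h6⟩ := exists_Cl G δ₁
  exact h5.ne (hf ((h3 _ h4).trans (h3 _ h6).symm))

/-- a ladder: a cofinal set of order type `ω` below a limit `δ` -/
theorem exists_ladder (δ : W) (hδ : Cl id δ) :
    ∃ L : Set W, (∀ a ∈ L, a < δ) ∧ (∀ β < δ, ∃ a ∈ L, β < a) ∧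
      ∀ β < δ, (L ∩ Set.Iio β).Finite := by
  have hc : (Set.Iio δ).Countable := W_countable_Iio δ
  obtain ⟨α₀, hα₀⟩ := hδ.1
  obtain ⟨e, he⟩ := hc.exists_eq_range ⟨α₀, hα₀⟩
  have h1 : ∀ (α : {x : W // x < δ}) (n : ℕ), ∃ β : {x : W // x < δ}, α < β ∧ e n < β.1 := by
    intro α n
    have hen : e n < δ := by
      have : e n ∈ Set.Iio δ := by rw [he]; exact ⟨n, rfl⟩
      exact this
    obtain ⟨β, hβ, h1, _⟩ := hδ.2 (max α.1 (e n)) (max_lt α.2 hen)
    refine ⟨⟨β, hβ⟩, ?_, lt_of_le_of_lt (le_max_right _ _) h1⟩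
    change α.1 < β
    exact lt_of_le_of_lt (le_max_left _ _) h1
  choose s hs1 hs2 using h1
  let a : ℕ → {x : W // x < δ} := fun n => Nat.rec ⟨α₀, hα₀⟩ (fun n x => s x n) n
  have ha : ∀ n, a (n + 1) = s (a n) n := fun n => rfl
  have hmono : StrictMono a := strictMono_nat_of_lt_succ fun n => by rw [ha]; exact hs1 _ _
  refine ⟨Set.range fun n => (a n).1, ?_, ?_, ?_⟩
  · rintro _ ⟨n, rfl⟩; exact (a n).2
  · intro β hβ
    have : β ∈ Set.range e := by rw [← he]; exact hβ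
    obtain ⟨n, rfl⟩ := this
    exact ⟨(a (n + 1)).1, ⟨n + 1, rfl⟩, by rw [ha]; exact hs2 _ _⟩
  · intro β hβ
    have : β ∈ Set.range e := by rw [← he]; exact hβ
    obtain ⟨n, rfl⟩ := this
    apply ((Set.finite_Iic n).image fun m => (a m).1).subset
    rintro _ ⟨⟨m, rfl⟩, hm⟩
    refine ⟨m, ?_, rfl⟩
    by_contra hnm
    simp only [Set.mem_Iic, not_le] at hnm
    have h3 : a (n + 1) ≤ a m := hmono.monotone hnm
    have h4 : e n < (a (n + 1)).1 := by rw [ha]; exact hs2 _ _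
    exact absurd hm (not_lt.mpr (h4.le.trans h3))

end MP_f38362_gt
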