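import Mathlib
import Pool.Agent.Lib_MP_f38362_gt.Omega1

/-!
# A ZFC space on which `G₁(𝒟,𝒟)` is undetermined
-/

open Set

namespace MP_f38362_gt

/-! ## The game -/

/-- `𝒟(X)`: the families of open subsets of `X` whose union is dense. -/
def DFam (X : Type) [TopologicalSpace X] : Set (Set (Set X)) :=
  {𝒰 | (∀ U ∈ 𝒰, IsOpen U) ∧ Dense (⋃₀ 𝒰)}

/-- The list of the first `n` innings of a play in which ONE makes the moves
`a 0, a 1, …` and TWO makes the moves `b 0, b 1, …`, the most recent inning first. -/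
def hist {α β : Type} (a : ℕ → α) (b : ℕ → β) : ℕ → List (α × β)
  | 0 => []
  | n + 1 => (a n, b n) :: hist a b n

/-- ONE has a winning strategy in `G₁(𝒟,𝒟)` on `X`. -/
def OneWins (X : Type) [TopologicalSpace X] : Prop :=
  ∃ σ : List (Set (Set X) × Set X) → Set (Set X), (∀ h, σ h ∈ DFam X) ∧
    ∀ (𝒰 : ℕ → Set (Set X)) (U : ℕ → Set X), (∀ n, 𝒰 n = σ (hist 𝒰 U n)) →
      (∀ n, U n ∈ 𝒰 n) → ¬ Dense (⋃ n, U n)

/-- TWO has a winning strategy in `G₁(𝒟,𝒟)` on `X`. -/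
def TwoWins (X : Type) [TopologicalSpace X] : Prop :=
  ∃ τ : List (Set (Set X) × Set X) → Set (Set X) → Set X,
    (∀ h, ∀ 𝒰 ∈ DFam X, τ h 𝒰 ∈ 𝒰) ∧
    ∀ (𝒰 : ℕ → Set (Set X)) (U : ℕ → Set X), (∀ n, 𝒰 n ∈ DFam X) →
      (∀ n, U n = τ (hist 𝒰 U n) (𝒰 n)) → Dense (⋃ n, U n)

/-! ## The space -/

section Space

variable (L : W → Set W)

/-- basic set: finite sets containing `s`, disjoint from `t`, and disjoint from `L δ`, `δ ∈ F` -/
def N (s t F : Finset W) : Set (Finset W) :=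
  {x | s ⊆ x ∧ Disjoint x t ∧ ∀ δ ∈ F, ∀ a ∈ x, a ∉ L δ}

/-- the space: finite subsets of `ω₁` -/
def Sp (_ : W → Set W) : Type := Finset W

/-- the topology -/
instance Sp.top : TopologicalSpace (Sp L) where
  IsOpen U := ∀ x ∈ U, ∃ t F : Finset W, x ∈ N L x t F ∧ N L x t F ⊆ U
  isOpen_univ := fun x _ => ⟨∅, ∅, ⟨subset_rfl, by simp, by simp⟩, subset_univ _⟩
  isOpen_inter := by
    intro U V hU hV x hx
    obtain ⟨t, F, h1, h2⟩ := hU x hx.1
    obtain ⟨t', F', h1', h2'⟩ := hV x hx.2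
    refine ⟨t ∪ t', F ∪ F', ⟨subset_rfl, ?_, ?_⟩, ?_⟩
    · exact Finset.disjoint_union_right.mpr ⟨h1.2.1, h1'.2.1⟩
    · intro δ hδ
      rcases Finset.mem_union.mp hδ with h | h
      · exact h1.2.2 δ h
      · exact h1'.2.2 δ h
    · intro y hy
      refine ⟨h2 ⟨hy.1, ?_, ?_⟩, h2' ⟨hy.1, ?_, ?_⟩⟩
      · exact (Finset.disjoint_union_right.mp hy.2.1).1
      · intro δ hδ; exact hy.2.2 δ (Finset.mem_union_left _ hδ)
      · exact (Finset.disjoint_union_right.mp hy.2.1).2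
      · intro δ hδ; exact hy.2.2 δ (Finset.mem_union_right _ hδ)
  isOpen_sUnion := by
    intro S hS x hx
    obtain ⟨U, hU, hxU⟩ := hx
    obtain ⟨t, F, h1, h2⟩ := hS U hU x hxU
    exact ⟨t, F, h1, h2.trans (subset_sUnion_of_mem hU)⟩

theorem isOpen_iff (U : Set (Sp L)) :
    IsOpen U ↔ ∀ x ∈ U, ∃ t F : Finset W, x ∈ N L x t F ∧ N L x t F ⊆ U := Iff.rfl

theorem isOpen_N (s t F : Finset W) : IsOpen (X := Sp L) (N L s t F) := by
  rw [isOpen_iff]
  intro (x : Finset W) hx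
  refine ⟨t, F, ⟨subset_rfl, hx.2.1, hx.2.2⟩, fun (y : Finset W) hy => ?_⟩
  exact ⟨Finset.Subset.trans hx.1 hy.1, hy.2.1, hy.2.2⟩

theorem isClosed_N (s t F : Finset W) : IsClosed (X := Sp L) (N L s t F) := by
  rw [← isOpen_compl_iff, isOpen_iff]
  intro (x : Finset W) hx
  have hx' : ¬ (s ⊆ x ∧ Disjoint x t ∧ ∀ δ ∈ F, ∀ a ∈ x, a ∉ L δ) := hx
  by_cases h1 : s ⊆ x
  · by_cases h2 : Disjoint x t
    · have h3 : ¬ ∀ δ ∈ F, ∀ a ∈ x, a ∉ L δ := fun h => hx' ⟨h1, h2, h⟩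
      push Not at h3
      obtain ⟨δ, hδ, a, ha, haL⟩ := h3
      refine ⟨∅, ∅, ⟨subset_rfl, by simp, by simp⟩, fun y hy hy' => ?_⟩
      exact hy'.2.2 δ hδ a (hy.1 ha) haL
    · refine ⟨∅, ∅, ⟨subset_rfl, by simp, by simp⟩, fun y hy hy' => h2 ?_⟩
      exact Finset.disjoint_of_subset_left hy.1 hy'.2.1
  · obtain ⟨a, ha, hax⟩ := Finset.not_subset.mp h1
    refine ⟨{a}, ∅, ⟨subset_rfl, by simpa using hax, by simp⟩, fun y hy hy' => ?_⟩
    exact (Finset.disjoint_singleton_right.mp hy.2.1) (hy'.1 ha)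

theorem isClopen_N (s t F : Finset W) : IsClopen (X := Sp L) (N L s t F) :=
  ⟨isClosed_N L s t F, isOpen_N L s t F⟩

instance : T2Space (Sp L) := by
  constructor
  intro (x : Finset W) (y : Finset W) hxy
  have key : ∀ x y : Finset W, (∃ a ∈ x, a ∉ y) →
      ∃ u v : Set (Sp L), IsOpen u ∧ IsOpen v ∧ x ∈ u ∧ y ∈ v ∧ Disjoint u v := by
    rintro x y ⟨a, hax, hay⟩
    refine ⟨N L {a} ∅ ∅, N L ∅ {a} ∅, isOpen_N L _ _ _, isOpen_N L _ _ _,
      ⟨by simpa using hax, by simp, by simp⟩, ⟨by simp, by simpa using hay, by simp⟩, ?_⟩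
    refine Set.disjoint_left.mpr ?_
    intro (z : Finset W) hz hz'
    exact (Finset.disjoint_singleton_right.mp hz'.2.1) (hz.1 (Finset.mem_singleton_self a))
  by_cases h : ∃ a ∈ x, a ∉ y
  · exact key x y h
  · push Not at h
    have h2 : ∃ a ∈ y, a ∉ x := by
      by_contra hcon
      push Not at hcon
      exact hxy (Finset.Subset.antisymm h hcon)
    obtain ⟨u, v, h1, h2, h3, h4, h5⟩ := key y x h2
    exact ⟨v, u, h2, h1, h4, h3, h5.symm⟩

theorem basis_clopen : TopologicalSpace.IsTopologicalBasis {U : Set (Sp L) | IsClopen U} := by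
  apply TopologicalSpace.isTopologicalBasis_of_isOpen_of_nhds
  · intro U hU; exact hU.2
  · intro x U hx hU
    obtain ⟨t, F, h1, h2⟩ := (isOpen_iff L U).mp hU x hx
    exact ⟨N L x t F, isClopen_N L x t F, h1, h2⟩

/-- conditions -/
abbrev C : Type := Finset W × Finset W × Finset W

/-- the open set of a condition -/
def NC (p : C) : Set (Sp L) := N L p.1 p.2.1 p.2.2

/-- validity: the basic set is nonempty, with smallest element `p.1` -/
def Valid (p : C) : Prop := Disjoint p.1 p.2.1 ∧ ∀ δ ∈ p.2.2, ∀ a ∈ p.1, a ∉ L δ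

theorem Valid.mem {p : C} (h : Valid L p) : (p.1 : Sp L) ∈ NC L p := ⟨subset_rfl, h.1, h.2⟩

/-- all entries are below `δ` -/
def Below (δ : W) (p : C) : Prop :=
  (∀ a ∈ p.1, a < δ) ∧ (∀ a ∈ p.2.1, a < δ) ∧ (∀ a ∈ p.2.2, a < δ)

theorem Below.mono {δ δ' : W} (h : δ ≤ δ') {p : C} (hp : Below δ p) : Below δ' p :=
  ⟨fun a ha => (hp.1 a ha).trans_le h, fun a ha => (hp.2.1 a ha).trans_le h,
    fun a ha => (hp.2.2 a ha).trans_le h⟩

theorem exists_valid {U : Set (Sp L)} (hU : IsOpen U) (hne : U.Nonempty) :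
    ∃ p : C, Valid L p ∧ NC L p ⊆ U := by
  obtain ⟨x, hx⟩ := hne
  obtain ⟨t, F, h1, h2⟩ := (isOpen_iff L U).mp hU x hx
  exact ⟨(x, t, F), ⟨h1.2.1, h1.2.2⟩, h2⟩

theorem finset_lt_bound (δ : W) (hδ : Cl id δ) (s : Finset W) (hs : ∀ a ∈ s, a < δ) :
    ∃ α < δ, ∀ a ∈ s, a < α := by
  induction s using Finset.induction_on with
  | empty =>
    obtain ⟨α, hα⟩ := hδ.1
    exact ⟨α, hα, by simp⟩
  | insert b s hb ih =>
    obtain ⟨α, hα, h1⟩ := ih (fun a ha => hs a (Finset.mem_insert_of_mem ha))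
    obtain ⟨β, hβ, h2, _⟩ := hδ.2 (max α b) (max_lt hα (hs b (Finset.mem_insert_self b s)))
    refine ⟨β, hβ, fun a ha => ?_⟩
    rcases Finset.mem_insert.mp ha with rfl | ha
    · exact lt_of_le_of_lt (le_max_right _ _) h2
    · exact (h1 a ha).trans (lt_of_le_of_lt (le_max_left _ _) h2)

theorem below_bound (δ : W) (hδ : Cl id δ) (p : C) (hp : Below δ p) : ∃ α < δ, Below α p := by
  obtain ⟨α, hα, h⟩ := finset_lt_bound δ hδ (p.1 ∪ p.2.1 ∪ p.2.2) (by
    intro a ha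
    rcases Finset.mem_union.mp ha with ha | ha
    · rcases Finset.mem_union.mp ha with ha | ha
      · exact hp.1 a ha
      · exact hp.2.1 a ha
    · exact hp.2.2 a ha)
  refine ⟨α, hα, fun a ha => h a ?_, fun a ha => h a ?_, fun a ha => h a ?_⟩ <;>
    simp [ha]

theorem below_bound_list (δ : W) (hδ : Cl id δ) (l : List C) (hl : ∀ p ∈ l, Below δ p) :
    ∃ α < δ, ∀ p ∈ l, Below α p := by
  induction l with
  | nil =>
    obtain ⟨α, hα⟩ := hδ.1
    exact ⟨α, hα, by simp⟩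
  | cons q l ih =>
    obtain ⟨α, hα, h1⟩ := ih (fun p hp => hl p (List.mem_cons_of_mem _ hp))
    obtain ⟨β, hβ, h2⟩ := below_bound δ hδ q (hl q List.mem_cons_self)
    refine ⟨max α β, max_lt hα hβ, fun p hp => ?_⟩
    rcases List.mem_cons.mp hp with rfl | hp
    · exact h2.mono (le_max_right _ _)
    · exact (h1 p hp).mono (le_max_left _ _)

theorem exists_below (p : C) : ∃ α, Below α p := by
  obtain ⟨b, hb⟩ := W_bdd (s := (↑(p.1 ∪ p.2.1 ∪ p.2.2) : Set W)) (Finset.countable_toSet _)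
  refine ⟨b, fun a ha => hb a ?_, fun a ha => hb a ?_, fun a ha => hb a ?_⟩ <;>
    simp [ha]

theorem countable_below (δ : W) : Countable {p : C // Below δ p} := by
  have : Countable (Set.Iio δ) := (W_countable_Iio δ).to_subtype
  let f : {p : C // Below δ p} → Finset (Set.Iio δ) × Finset (Set.Iio δ) × Finset (Set.Iio δ) :=
    fun p => (p.1.1.subtype (· < δ), p.1.2.1.subtype (· < δ), p.1.2.2.subtype (· < δ))
  have key : ∀ s t : Finset W, (∀ a ∈ s, a < δ) → (∀ a ∈ t, a < δ) →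
      s.subtype (· < δ) = t.subtype (· < δ) → s = t := by
    intro s t hs ht h
    ext a
    constructor
    · intro ha
      have : (⟨a, hs a ha⟩ : {x // x < δ}) ∈ s.subtype (· < δ) := Finset.mem_subtype.mpr ha
      rw [h] at this
      exact Finset.mem_subtype.mp this
    · intro ha
      have : (⟨a, ht a ha⟩ : {x // x < δ}) ∈ t.subtype (· < δ) := Finset.mem_subtype.mpr ha
      rw [← h] at this
      exact Finset.mem_subtype.mp this
  have hf : Function.Injective f := by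
    rintro ⟨⟨a, b, c⟩, hp⟩ ⟨⟨a', b', c'⟩, hp'⟩ h
    simp only [f, Prod.mk.injEq] at h
    have h1 := key a a' hp.1 hp'.1 h.1
    have h2 := key b b' hp.2.1 hp'.2.1 h.2.1
    have h3 := key c c' hp.2.2 hp'.2.2 h.2.2
    subst h1 h2 h3
    rfl
  exact hf.countable

theorem exists_closing (c : List C → C) : ∃ g : W → W, ∀ δ, Cl g δ →
    ∀ l : List C, (∀ p ∈ l, Below δ p) → Below δ (c l) := by
  have h1 : ∀ α : W, ∃ b : W, ∀ l : List C, (∀ p ∈ l, Below α p) → Below b (c l) := by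
    intro α
    have := countable_below α
    choose β hβ using exists_below
    obtain ⟨b, hb⟩ := W_bdd (s := Set.range fun l : List {p : C // Below α p} =>
      β (c (l.map Subtype.val))) (Set.countable_range _)
    refine ⟨b, fun l hl => ?_⟩
    obtain ⟨l', rfl⟩ : ∃ l' : List {p : C // Below α p}, l'.map Subtype.val = l := by
      exact ⟨l.attachWith _ hl, by rw [List.attachWith_map_subtype_val]⟩
    exact (hβ _).mono (hb _ ⟨l', rfl⟩).le
  choose g hg using h1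
  refine ⟨g, fun δ hδ l hl => ?_⟩
  have hδ' : Cl id δ := ⟨hδ.1, fun α hα => by
    obtain ⟨β, hβ, h1, _⟩ := hδ.2 α hα
    exact ⟨β, hβ, h1, h1⟩⟩
  obtain ⟨α, hα, h2⟩ := below_bound_list δ hδ' l hl
  obtain ⟨β, hβ, _, h3⟩ := hδ.2 α hα
  exact (hg α l h2).mono (h3.trans hβ).le

/-! ### TWO has no winning strategy -/

theorem not_twoWins (E : Set W) (hE : ∀ g : W → W, ∃ δ ∈ E, Cl g δ)
    (hL1 : ∀ δ, ∀ a ∈ L δ, a < δ)
    (hL2 : ∀ δ ∈ E, Cl id δ → ∀ β < δ, ∃ a ∈ L δ, β < a) : ¬ TwoWins (Sp L) := by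
  rintro ⟨τ, hτ, hwin⟩
  -- at each history there is a condition below which every basic set can be TWO's answer
  have h1 : ∀ h : List (Set (Set (Sp L)) × Set (Sp L)), ∃ c : C, Valid L c ∧
      ∀ U : Set (Sp L), IsOpen U → U.Nonempty → U ⊆ NC L c → ∃ 𝒰 ∈ DFam (Sp L), τ h 𝒰 = U := by
    intro h
    by_contra hcon
    push Not at hcon
    let 𝒱 : Set (Set (Sp L)) := {U | IsOpen U ∧ ∀ 𝒰 ∈ DFam (Sp L), τ h 𝒰 ≠ U}
    have h𝒱 : 𝒱 ∈ DFam (Sp L) := by
      refine ⟨fun U hU => hU.1, ?_⟩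
      rw [dense_iff_inter_open]
      intro G hG hGne
      obtain ⟨c, hc, hcG⟩ := exists_valid L hG hGne
      obtain ⟨U, hU, hUne, hUc, hU2⟩ := hcon c hc
      obtain ⟨x, hx⟩ := hUne
      exact ⟨x, hcG (hUc hx), U, ⟨hU, hU2⟩, hx⟩
    exact (hτ h 𝒱 h𝒱).2 𝒱 h𝒱 rfl
  choose c hc1 hc2 using h1
  -- one step
  have h2 : ∀ (q : C) (h : List (Set (Set (Sp L)) × Set (Sp L))), ∃ 𝒰 ∈ DFam (Sp L),
      Valid L q → NC L q ⊆ NC L (c h) → τ h 𝒰 = NC L q := by
    intro q h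
    by_cases hq : Valid L q ∧ NC L q ⊆ NC L (c h)
    · obtain ⟨𝒰, h𝒰, h3⟩ := hc2 h (NC L q) (isOpen_N L _ _ _) ⟨_, hq.1.mem⟩ hq.2
      exact ⟨𝒰, h𝒰, fun _ _ => h3⟩
    · refine ⟨{Set.univ}, ⟨by simp, by simp⟩, fun h3 h4 => absurd ⟨h3, h4⟩ hq⟩
  choose s hs1 hs2 using h2
  let H : List C → List (Set (Set (Sp L)) × Set (Sp L)) := fun l =>
    List.rec [] (fun q _ h => (s q h, τ h (s q h)) :: h) l
  have hH : ∀ q l, H (q :: l) = (s q (H l), τ (H l) (s q (H l))) :: H l := fun q l => rfl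
  obtain ⟨g, hg⟩ := exists_closing (fun l => c (H l))
  obtain ⟨δ, hδE, hδ⟩ := hE g
  have hδ' : Cl id δ := ⟨hδ.1, fun α hα => by
    obtain ⟨β, hβ, h1, _⟩ := hδ.2 α hα
    exact ⟨β, hβ, h1, h1⟩⟩
  -- choose the next request
  have h3 : ∀ l : List C, ∃ q : C, (∀ p ∈ l, Below δ p) →
      (Below δ q ∧ Valid L q ∧ NC L q ⊆ NC L (c (H l)) ∧ ∃ a ∈ q.1, a ∈ L δ) := by
    intro l
    by_cases hl : ∀ p ∈ l, Below δ p
    · have hb := hg δ hδ l hl
      obtain ⟨α, hα, hbα⟩ := below_bound δ hδ' _ hb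
      obtain ⟨a, haL, hαa⟩ := hL2 δ hδE hδ' α hα
      have haδ : a < δ := hL1 δ a haL
      have hv := hc1 (H l)
      refine ⟨(insert a (c (H l)).1, (c (H l)).2.1, (c (H l)).2.2), fun _ => ⟨?_, ?_, ?_, ?_⟩⟩
      · refine ⟨fun b hb' => ?_, hb.2.1, hb.2.2⟩
        rcases Finset.mem_insert.mp hb' with rfl | hb'
        · exact haδ
        · exact hb.1 b hb'
      · refine ⟨?_, ?_⟩
        · rw [Finset.disjoint_insert_left]
          exact ⟨fun hat => absurd (hbα.2.1 a hat) (not_lt.mpr hαa.le), hv.1⟩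
        · intro γ hγ b hb' hbL
          rcases Finset.mem_insert.mp hb' with rfl | hb'
          · exact absurd (hL1 γ _ hbL) (not_lt.mpr ((hbα.2.2 γ hγ).trans hαa).le)
          · exact hv.2 γ hγ b hb' hbL
      · intro x hx
        exact ⟨(Finset.subset_insert _ _).trans hx.1, hx.2.1, hx.2.2⟩
      · exact ⟨a, Finset.mem_insert_self _ _, haL⟩
    · exact ⟨(∅, ∅, ∅), fun h => absurd h hl⟩
  choose q hq using h3
  let ls : ℕ → List C := fun n => Nat.rec [] (fun _ l => q l :: l) n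
  have hls : ∀ n, ls (n + 1) = q (ls n) :: ls n := fun n => rfl
  have hlsB : ∀ n, ∀ p ∈ ls n, Below δ p := by
    intro n
    induction n with
    | zero => intro p hp; exact absurd hp (List.not_mem_nil)
    | succ n ih =>
      intro p hp
      rw [hls] at hp
      rcases List.mem_cons.mp hp with rfl | hp
      · exact (hq _ ih).1
      · exact ih p hp
  let 𝒰 : ℕ → Set (Set (Sp L)) := fun n => s (q (ls n)) (H (ls n))
  let U : ℕ → Set (Sp L) := fun n => τ (H (ls n)) (𝒰 n)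
  have hhist : ∀ n, hist 𝒰 U n = H (ls n) := by
    intro n
    induction n with
    | zero => rfl
    | succ n ih =>
      rw [hls, hH]
      change (𝒰 n, U n) :: hist 𝒰 U n = _
      rw [ih]
  have hdense := hwin 𝒰 U (fun n => hs1 _ _) (fun n => by rw [hhist])
  have hopen : IsOpen (X := Sp L) (N L ∅ ∅ {δ}) := isOpen_N L _ _ _
  have hne : (N L ∅ ∅ {δ} : Set (Sp L)).Nonempty := ⟨(∅ : Finset W), by simp [N]⟩
  obtain ⟨x, hx1, hx2⟩ := (dense_iff_inter_open.mp hdense) _ hopen hne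
  obtain ⟨n, hn⟩ := Set.mem_iUnion.mp hx2
  have hqn := hq (ls n) (hlsB n)
  have hUn : U n = NC L (q (ls n)) := hs2 _ _ hqn.2.1 hqn.2.2.1
  rw [hUn] at hn
  obtain ⟨a, ha, haL⟩ := hqn.2.2.2
  exact hx1.2.2 δ (Finset.mem_singleton_self δ) a (hn.1 ha) haL

/-! ### ONE has no winning strategy -/

theorem not_oneWins (E : Set W) (hE : ∀ g : W → W, ∃ δ, δ ∉ E ∧ Cl g δ)
    (hL0 : ∀ δ, δ ∉ E → L δ = ∅)
    (hL1 : ∀ δ, ∀ a ∈ L δ, a < δ)
    (hL3 : ∀ δ, ∀ β < δ, (L δ ∩ Set.Iio β).Finite) : ¬ OneWins (Sp L) := by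
  classical
  rintro ⟨σ, hσ, hwin⟩
  have h1 : ∀ (q : C) (h : List (Set (Set (Sp L)) × Set (Sp L))), ∃ U ∈ σ h, ∃ r : C,
      Valid L q → (Valid L r ∧ NC L r ⊆ U ∧ NC L r ⊆ NC L q) := by
    intro q h
    by_cases hq : Valid L q
    · obtain ⟨x, hx1, U, hU, hx2⟩ := (dense_iff_inter_open.mp (hσ h).2) (NC L q)
        (isOpen_N L _ _ _) ⟨_, hq.mem⟩
      obtain ⟨r, hr1, hr2⟩ := exists_valid L (((hσ h).1 U hU).inter (isOpen_N L q.1 q.2.1 q.2.2))
        ⟨x, hx2, hx1⟩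
      exact ⟨U, hU, r, fun _ => ⟨hr1, fun y hy => (hr2 hy).1, fun y hy => (hr2 hy).2⟩⟩
    · obtain ⟨x, hx1, U, hU, hx2⟩ := (dense_iff_inter_open.mp (hσ h).2) Set.univ
        isOpen_univ ⟨(∅ : Finset W), trivial⟩
      exact ⟨U, hU, q, fun h => absurd h hq⟩
  choose u hu r hr using h1
  let H : List C → List (Set (Set (Sp L)) × Set (Sp L)) := fun l =>
    List.rec [] (fun q _ h => (σ h, u q h) :: h) l
  have hH : ∀ q l, H (q :: l) = (σ (H l), u q (H l)) :: H l := fun q l => rfl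
  let R : List C → C := fun l => match l with
    | [] => (∅, ∅, ∅)
    | q :: l => r q (H l)
  have hR : ∀ q l, R (q :: l) = r q (H l) := fun q l => rfl
  obtain ⟨g, hg⟩ := exists_closing R
  obtain ⟨δ, hδE, hδ⟩ := hE g
  have := countable_below δ
  have hne : Nonempty {p : C // Below δ p} := ⟨⟨(∅, ∅, ∅), by simp [Below]⟩⟩
  obtain ⟨e, he⟩ := exists_surjective_nat {p : C // Below δ p}
  let ls : ℕ → List C := fun n => Nat.rec [] (fun n l => (e n).1 :: l) n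
  have hls : ∀ n, ls (n + 1) = (e n).1 :: ls n := fun n => rfl
  have hlsB : ∀ n, ∀ p ∈ ls n, Below δ p := by
    intro n
    induction n with
    | zero => intro p hp; exact absurd hp (List.not_mem_nil)
    | succ n ih =>
      intro p hp
      rw [hls] at hp
      rcases List.mem_cons.mp hp with rfl | hp
      · exact (e n).2
      · exact ih p hp
  let 𝒰 : ℕ → Set (Set (Sp L)) := fun n => σ (H (ls n))
  let U : ℕ → Set (Sp L) := fun n => u (e n).1 (H (ls n))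
  have hhist : ∀ n, hist 𝒰 U n = H (ls n) := by
    intro n
    induction n with
    | zero => rfl
    | succ n ih =>
      rw [hls, hH]
      change (𝒰 n, U n) :: hist 𝒰 U n = _
      rw [ih]
  refine hwin 𝒰 U (fun n => by rw [hhist]) (fun n => hu _ _) ?_
  rw [dense_iff_inter_open]
  intro G hG hGne
  obtain ⟨p, hp, hpG⟩ := exists_valid L hG hGne
  -- the restriction of `p` to `δ`
  have hfin : {a : W | (a ∈ p.2.1 ∧ a < δ) ∨ ∃ γ ∈ p.2.2, δ ≤ γ ∧ a ∈ L γ ∧ a < δ}.Finite := by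
    have h1 : {a : W | (a ∈ p.2.1 ∧ a < δ) ∨ ∃ γ ∈ p.2.2, δ ≤ γ ∧ a ∈ L γ ∧ a < δ} ⊆
        (↑p.2.1 : Set W) ∪ ⋃ γ ∈ {γ | γ ∈ p.2.2 ∧ δ ≤ γ}, (L γ ∩ Set.Iio δ) := by
      rintro a (⟨h, _⟩ | ⟨γ, hγ, h1, h2, h3⟩)
      · exact Or.inl h
      · exact Or.inr (Set.mem_biUnion (show γ ∈ {γ | γ ∈ p.2.2 ∧ δ ≤ γ} from ⟨hγ, h1⟩) ⟨h2, h3⟩)
    refine Set.Finite.subset (Set.Finite.union p.2.1.finite_toSet
      (Set.Finite.biUnion (p.2.2.finite_toSet.subset fun γ hγ => hγ.1) ?_)) h1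
    rintro γ ⟨_, hγ⟩
    rcases hγ.lt_or_eq with h | h
    · exact hL3 γ δ h
    · rw [← h, hL0 δ hδE]; simp
  let t' : Finset W := hfin.toFinset
  have ht' : ∀ a, a ∈ t' ↔ (a ∈ p.2.1 ∧ a < δ) ∨ ∃ γ ∈ p.2.2, δ ≤ γ ∧ a ∈ L γ ∧ a < δ := by
    intro a; simp [t']
  let p' : C := (p.1.filter (· < δ), t', p.2.2.filter (· < δ))
  have hp'B : Below δ p' := by
    refine ⟨fun a ha => (Finset.mem_filter.mp ha).2, fun a ha => ?_,
      fun a ha => (Finset.mem_filter.mp ha).2⟩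
    rcases (ht' a).mp ha with h | ⟨_, _, _, _, h⟩
    · exact h.2
    · exact h
  have hp'V : Valid L p' := by
    refine ⟨?_, ?_⟩
    · rw [Finset.disjoint_left]
      intro a ha hat
      have ha' := (Finset.mem_filter.mp ha).1
      rcases (ht' a).mp hat with h | ⟨γ, hγ, _, h2, _⟩
      · exact (Finset.disjoint_left.mp hp.1) ha' h.1
      · exact hp.2 γ hγ a ha' h2
    · intro γ hγ a ha
      exact hp.2 γ (Finset.mem_filter.mp hγ).1 a (Finset.mem_filter.mp ha).1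
  obtain ⟨n, hn⟩ := he ⟨p', hp'B⟩
  have hn' : (e n).1 = p' := by rw [hn]
  have hrn := hr (e n).1 (H (ls n)) (by rw [hn']; exact hp'V)
  have hRB : Below δ (r (e n).1 (H (ls n))) := by
    exact hg δ hδ (ls (n + 1)) (hlsB (n + 1))
  set ρ : C := r (e n).1 (H (ls n)) with hρ
  have hρp : (ρ.1 : Sp L) ∈ NC L p' := by
    rw [← hn']
    exact hrn.2.2 hrn.1.mem
  -- the common point
  refine ⟨(p.1 ∪ ρ.1 : Finset W), hpG ?_, Set.mem_iUnion.mpr ⟨n, hrn.2.1 ?_⟩⟩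
  · refine ⟨Finset.subset_union_left, ?_, ?_⟩
    · rw [Finset.disjoint_union_left]
      refine ⟨hp.1, ?_⟩
      rw [Finset.disjoint_left]
      intro a ha hat
      exact (Finset.disjoint_left.mp hρp.2.1) ha ((ht' a).mpr (Or.inl ⟨hat, hRB.1 a ha⟩))
    · intro γ hγ a ha haL
      rcases Finset.mem_union.mp ha with ha | ha
      · exact hp.2 γ hγ a ha haL
      · by_cases hγδ : γ < δ
        · exact hρp.2.2 γ (Finset.mem_filter.mpr ⟨hγ, hγδ⟩) a ha haL
        · exact (Finset.disjoint_left.mp hρp.2.1) ha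
            ((ht' a).mpr (Or.inr ⟨γ, hγ, not_lt.mp hγδ, haL, hRB.1 a ha⟩))
  · refine ⟨Finset.subset_union_right, ?_, ?_⟩
    · rw [Finset.disjoint_union_left]
      refine ⟨?_, hrn.1.1⟩
      rw [Finset.disjoint_left]
      intro a ha hat
      exact (Finset.disjoint_left.mp hrn.1.1)
        (hρp.1 (Finset.mem_filter.mpr ⟨ha, hRB.2.1 a hat⟩)) hat
    · intro γ hγ a ha haL
      rcases Finset.mem_union.mp ha with ha | ha
      · have haδ : a < δ := (hL1 γ a haL).trans (hRB.2.2 γ hγ)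
        exact hrn.1.2 γ hγ a (hρp.1 (Finset.mem_filter.mpr ⟨ha, haδ⟩)) haL
      · exact hrn.1.2 γ hγ a ha haL

end Space

open Cardinal in
/-- a zero-dimensional Hausdorff space of size `ℵ₁` on which `G₁(𝒟,𝒟)` is undetermined -/
theorem exists_undetermined : ∃ (X : Type) (_ : TopologicalSpace X), T2Space X ∧
    TopologicalSpace.IsTopologicalBasis {U : Set X | IsClopen U} ∧ #X = ℵ₁ ∧
    ¬ OneWins X ∧ ¬ TwoWins X := by
  classical
  obtain ⟨E, hE1, hE2⟩ := exists_split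
  have h1 : ∀ δ : W, ∃ L : Set W, (∀ a ∈ L, a < δ) ∧ (∀ β < δ, (L ∩ Set.Iio β).Finite) ∧
      (δ ∉ E → L = ∅) ∧ (δ ∈ E → Cl id δ → ∀ β < δ, ∃ a ∈ L, β < a) := by
    intro δ
    by_cases h : δ ∈ E ∧ Cl id δ
    · obtain ⟨L, h1, h2, h3⟩ := exists_ladder δ h.2
      exact ⟨L, h1, h3, fun h' => absurd h.1 h', fun _ _ => h2⟩
    · exact ⟨∅, by simp, by simp, fun _ => rfl, fun h1 h2 => absurd ⟨h1, h2⟩ h⟩
  choose L hL1 hL3 hL0 hL2 using h1
  refine ⟨Sp L, Sp.top L, inferInstance, basis_clopen L, ?_, not_oneWins L E hE2 hL0 hL1 hL3,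
    not_twoWins L E hE1 hL1 hL2⟩
  change #(Finset W) = ℵ₁
  have : Infinite W := by
    by_contra h
    rw [not_infinite_iff_finite] at h
    exact W_not_countable inferInstance
  rw [Cardinal.mk_finset_of_infinite]
  exact mk_W

end MP_f38362_gt
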