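import Mathlib

open Set

namespace Pool.Agent.Lib_MP_f38362_gt.OpenPoint

/-- The list of the first `n` innings of a play in which the first player makes the moves
`a 0, a 1, …` and the second player makes the moves `b 0, b 1, …`, the most recent inning
first. -/
def history {α β : Type} (a : ℕ → α) (b : ℕ → β) : ℕ → List (α × β)
  | 0 => []
  | n + 1 => (a n, b n) :: history a b n

/-- The open-set player has a winning strategy in the open-point game on `X`. -/
def OpenPlayerWins (X : Type) [TopologicalSpace X] : Prop :=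
  ∃ σ : List (Set X × X) → Set X, (∀ h, IsOpen (σ h) ∧ (σ h).Nonempty) ∧
    ∀ (U : ℕ → Set X) (x : ℕ → X), (∀ n, U n = σ (history U x n)) → (∀ n, x n ∈ U n) →
      Dense (range x)

/-- The point player has a winning strategy in the open-point game on `X`. -/
def PointPlayerWins (X : Type) [TopologicalSpace X] : Prop :=
  ∃ τ : List (Set X × X) → Set X → X,
    (∀ h U, IsOpen U → U.Nonempty → τ h U ∈ U) ∧
    ∀ (U : ℕ → Set X) (x : ℕ → X), (∀ n, IsOpen (U n) ∧ (U n).Nonempty) →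
      (∀ n, x n = τ (history U x n) (U n)) → ¬ Dense (range x)

section Abstract

variable {X : Type} [LinearOrder X] [WellFoundedLT X]

theorem exists_bound (hc : ∀ a : X, (Iio a).Countable) (hu : ¬ (univ : Set X).Countable)
    {S : Set X} (hS : S.Countable) : ∃ b, ∀ x ∈ S, x < b := by
  by_contra hcon
  push Not at hcon
  apply hu
  have : (univ : Set X) ⊆ ⋃ x ∈ S, (insert x (Iio x)) := by
    intro y _
    obtain ⟨x, hx, hyx⟩ := hcon y
    refine mem_iUnion₂.2 ⟨x, hx, ?_⟩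
    rcases hyx.lt_or_eq with h | h
    · exact Or.inr h
    · exact Or.inl h
  exact (hS.biUnion fun x _ => (hc x).insert x).mono this

theorem exists_closed (hc : ∀ a : X, (Iio a).Countable) (hu : ¬ (univ : Set X).Countable)
    (G : X → X) (a : X) : ∃ δ, a < δ ∧ ∀ γ < δ, G γ < δ := by
  have h1 : ∀ γ : X, ∃ g, γ < g ∧ ∀ γ' ≤ γ, G γ' < g := by
    intro γ
    have hS : (insert γ (G '' (insert γ (Iio γ)))).Countable :=
      (((hc γ).insert γ).image G).insert γ
    obtain ⟨b, hb⟩ := exists_bound hc hu hS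
    refine ⟨b, hb _ (mem_insert _ _), fun γ' hγ' => hb _ (Or.inr ⟨γ', ?_, rfl⟩)⟩
    rcases hγ'.lt_or_eq with h | h
    · exact Or.inr h
    · exact Or.inl h
  choose g hg1 hg2 using h1
  let c : ℕ → X := fun n => g^[n + 1] a
  have hne : {b | ∀ n, c n ≤ b}.Nonempty := by
    obtain ⟨b, hb⟩ := exists_bound hc hu (countable_range c)
    exact ⟨b, fun n => (hb _ ⟨n, rfl⟩).le⟩
  set δ := wellFounded_lt.min _ hne with hδ
  have hδ1 : ∀ n, c n ≤ δ := wellFounded_lt.min_mem _ hne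
  have hδ2 : ∀ γ < δ, ∃ n, γ < c n := by
    intro γ hγ
    by_contra hcon
    push Not at hcon
    exact wellFounded_lt.not_lt_min {b | ∀ n, c n ≤ b} (x := γ) hcon hγ
  have hcs : ∀ n, c (n + 1) = g (c n) := fun n => by
    simp only [c]; rw [Function.iterate_succ_apply']
  refine ⟨δ, lt_of_lt_of_le (hg1 a) (hδ1 0), fun γ hγ => ?_⟩
  obtain ⟨n, hn⟩ := hδ2 γ hγ
  refine lt_of_lt_of_le (hg2 (c n) γ hn.le) ?_
  rw [← hcs]; exact hδ1 _

/-- `δ` is good for the sets `B k`. -/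
def Good (B : ℕ → Set X) (δ : X) : Prop :=
  (∃ a, a < δ) ∧ ∀ γ < δ, ∀ k, ∃ x ∈ B k, γ < x ∧ x < δ

theorem exists_ladder (hc : ∀ a : X, (Iio a).Countable) (B : ℕ → Set X) (δ : X) :
    ∃ C : Set X, C ⊆ Iio δ ∧ (∀ γ < δ, (C ∩ Iio γ).Finite) ∧
      (Good B δ → ∀ k, ∀ γ < δ, ∃ c ∈ C, c ∈ B k ∧ γ < c) := by
  by_cases hg : Good B δ
  swap
  · exact ⟨∅, empty_subset _, fun γ _ => by simp, fun h => absurd h hg⟩
  obtain ⟨⟨a, ha⟩, hB⟩ := hg
  obtain ⟨d, hd⟩ := (hc δ).exists_eq_range ⟨a, ha⟩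
  have hdlt : ∀ i, d i < δ := fun i => by
    have : d i ∈ Iio δ := hd ▸ mem_range_self i
    exact this
  have hm : ∀ n : ℕ, ∃ m < δ, ∀ i ≤ n, d i ≤ m := by
    intro n
    induction n with
    | zero => exact ⟨d 0, hdlt 0, fun i hi => by simp [Nat.le_zero.1 hi]⟩
    | succ n ih =>
      obtain ⟨m, hm1, hm2⟩ := ih
      refine ⟨max m (d (n + 1)), max_lt hm1 (hdlt _), fun i hi => ?_⟩
      rcases Nat.le_succ_iff.1 hi with h | h
      · exact (hm2 i h).trans (le_max_left _ _)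
      · rw [h]; exact le_max_right _ _
  have hcx : ∀ n : ℕ, ∃ c ∈ B (Nat.unpair n).1, c < δ ∧ ∀ i ≤ n, d i < c := by
    intro n
    obtain ⟨m, hm1, hm2⟩ := hm n
    obtain ⟨x, hx, hx1, hx2⟩ := hB m hm1 (Nat.unpair n).1
    exact ⟨x, hx, hx2, fun i hi => lt_of_le_of_lt (hm2 i hi) hx1⟩
  choose c hc1 hc2 hc3 using hcx
  refine ⟨range c, ?_, ?_, fun _ k γ hγ => ?_⟩
  · rintro _ ⟨n, rfl⟩; exact hc2 n
  · intro γ hγ
    have : γ ∈ range d := hd ▸ hγ
    obtain ⟨i, rfl⟩ := this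
    refine ((Set.finite_lt_nat i).image c).subset ?_
    rintro _ ⟨⟨n, rfl⟩, hn⟩
    refine ⟨n, ?_, rfl⟩
    by_contra hni
    exact absurd (hc3 n i (not_lt.1 hni)) (not_lt.2 (le_of_lt hn))
  · have : γ ∈ range d := hd ▸ hγ
    obtain ⟨i, rfl⟩ := this
    refine ⟨c (Nat.pair k i), mem_range_self _, ?_, hc3 _ _ (Nat.right_le_pair k i)⟩
    have := hc1 (Nat.pair k i)
    rwa [Nat.unpair_pair] at this

variable (C : X → Set X)

/-- The ideal generated by the finite sets and the sets `C γ`. -/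
def Small (A : Set X) : Prop := ∃ F : Finset X, A ⊆ (F : Set X) ∪ ⋃ γ ∈ F, C γ

variable {C}

omit [WellFoundedLT X] in
theorem Small.mono {A A' : Set X} (h : Small C A) (h' : A' ⊆ A) : Small C A' := by
  obtain ⟨F, hF⟩ := h
  exact ⟨F, h'.trans hF⟩

omit [WellFoundedLT X] in
theorem small_empty : Small C ∅ := ⟨∅, empty_subset _⟩

omit [WellFoundedLT X] in
theorem Small.union {A A' : Set X} (h : Small C A) (h' : Small C A') : Small C (A ∪ A') := by
  classical
  obtain ⟨F, hF⟩ := h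
  obtain ⟨F', hF'⟩ := h'
  refine ⟨F ∪ F', ?_⟩
  rintro x (hx | hx)
  · rcases hF hx with h | h
    · left; simp only [Finset.coe_union]; exact Or.inl h
    · right
      obtain ⟨γ, hγ, hx⟩ := mem_iUnion₂.1 h
      exact mem_iUnion₂.2 ⟨γ, Finset.mem_union_left _ hγ, hx⟩
  · rcases hF' hx with h | h
    · left; simp only [Finset.coe_union]; exact Or.inr h
    · right
      obtain ⟨γ, hγ, hx⟩ := mem_iUnion₂.1 h
      exact mem_iUnion₂.2 ⟨γ, Finset.mem_union_right _ hγ, hx⟩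

omit [WellFoundedLT X] in
theorem small_C (γ : X) : Small C (C γ) := ⟨{γ}, fun x hx => Or.inr (by simpa using hx)⟩

omit [WellFoundedLT X] in
theorem Small.countable (hc : ∀ a : X, (Iio a).Countable) (hC : ∀ γ, C γ ⊆ Iio γ) {A : Set X}
    (h : Small C A) : A.Countable := by
  obtain ⟨F, hF⟩ := h
  refine Countable.mono hF ?_
  exact F.countable_toSet.union (F.countable_toSet.biUnion fun γ _ => (hc γ).mono (hC γ))

/-- Adding to a topology the complements of all small sets as open sets. -/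
def newTop (C : X → Set X) (t : TopologicalSpace X) : TopologicalSpace X where
  IsOpen W := ∀ x ∈ W, ∃ U, t.IsOpen U ∧ x ∈ U ∧ ∃ A, Small C A ∧ U \ A ⊆ W
  isOpen_univ x _ := ⟨univ, t.isOpen_univ, trivial, ∅, small_empty, fun _ _ => trivial⟩
  isOpen_inter W W' h h' x hx := by
    obtain ⟨U, hU, hxU, A, hA, hUA⟩ := h x hx.1
    obtain ⟨U', hU', hxU', A', hA', hUA'⟩ := h' x hx.2
    refine ⟨U ∩ U', t.isOpen_inter _ _ hU hU', ⟨hxU, hxU'⟩, A ∪ A', hA.union hA', ?_⟩
    rintro y ⟨⟨hy1, hy2⟩, hy3⟩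
    exact ⟨hUA ⟨hy1, fun h => hy3 (Or.inl h)⟩, hUA' ⟨hy2, fun h => hy3 (Or.inr h)⟩⟩
  isOpen_sUnion S hS x hx := by
    obtain ⟨W, hW, hxW⟩ := hx
    obtain ⟨U, hU, hxU, A, hA, hUA⟩ := hS W hW x hxW
    exact ⟨U, hU, hxU, A, hA, hUA.trans (subset_sUnion_of_mem hW)⟩

omit [WellFoundedLT X] in
theorem finite_bound {δ : X} (hδ : ∃ a, a < δ) {S : Set X} (hS : S.Finite)
    (h : ∀ x ∈ S, x < δ) : ∃ b < δ, ∀ x ∈ S, x ≤ b := by
  rcases S.eq_empty_or_nonempty with rfl | hne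
  · obtain ⟨a, ha⟩ := hδ
    exact ⟨a, ha, fun x hx => absurd hx (notMem_empty x)⟩
  · obtain ⟨b, hb, hb'⟩ := Set.exists_max_image S id hS hne
    exact ⟨b, h b hb, hb'⟩

omit [WellFoundedLT X] in
theorem bound_of_notMem (hC1 : ∀ γ, C γ ⊆ Iio γ) (hC2 : ∀ δ, ∀ γ < δ, (C δ ∩ Iio γ).Finite)
    {δ : X} (hδ : ∃ a, a < δ) (F : Finset X) (hF : δ ∉ F) :
    ∃ m < δ, ∀ x < δ, x ∈ (F : Set X) ∪ ⋃ γ ∈ F, C γ → x ≤ m := by
  classical
  induction F using Finset.induction_on with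
  | empty =>
    obtain ⟨a, ha⟩ := hδ
    exact ⟨a, ha, fun x _ hx => by simp at hx⟩
  | insert γ F hγ ih =>
    rw [Finset.mem_insert, not_or] at hF
    obtain ⟨m, hm, hm'⟩ := ih hF.2
    have h1 : ∃ m' < δ, ∀ x < δ, x = γ ∨ x ∈ C γ → x ≤ m' := by
      rcases lt_or_gt_of_ne hF.1 with h | h
      · obtain ⟨b, hbδ, hb⟩ := finite_bound hδ (hC2 γ δ h) (fun x hx => hx.2)
        refine ⟨b, hbδ, ?_⟩
        rintro x hx (rfl | hxC)
        · exact absurd hx (not_lt.2 h.le)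
        · exact hb x ⟨hxC, hx⟩
      · refine ⟨γ, h, ?_⟩
        rintro x _ (rfl | hxC)
        · exact le_rfl
        · exact (hC1 γ hxC).le
    obtain ⟨m', hm1, hm2⟩ := h1
    refine ⟨max m m', max_lt hm hm1, fun x hx hxF => ?_⟩
    rcases hxF with hxF | hxF
    · rw [Finset.mem_coe, Finset.mem_insert] at hxF
      rcases hxF with hxF | hxF
      · exact (hm2 x hx (Or.inl hxF)).trans (le_max_right _ _)
      · exact (hm' x hx (Or.inl hxF)).trans (le_max_left _ _)
    · obtain ⟨γ', hγ', hx'⟩ := mem_iUnion₂.1 hxF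
      rw [Finset.mem_insert] at hγ'
      rcases hγ' with rfl | hγ'
      · exact (hm2 x hx (Or.inr hx')).trans (le_max_right _ _)
      · exact (hm' x hx (Or.inr (mem_iUnion₂.2 ⟨γ', hγ', hx'⟩))).trans (le_max_left _ _)

/-- A set which is not small has a countable subset which is not small. -/
theorem exists_countable_not_small (hc : ∀ a : X, (Iio a).Countable)
    (hu : ¬ (univ : Set X).Countable)
    (hC1 : ∀ γ, C γ ⊆ Iio γ) (hC2 : ∀ δ, ∀ γ < δ, (C δ ∩ Iio γ).Finite)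
    {S : Set X} (hS : ¬ Small C S) : ∃ S' ⊆ S, S'.Countable ∧ ¬ Small C S' := by
  by_cases hSc : S.Countable
  · exact ⟨S, Subset.rfl, hSc, hS⟩
  have h1 : ∀ γ : X, ∃ x ∈ S, γ < x := by
    intro γ
    by_contra hcon
    push Not at hcon
    exact hSc (((hc γ).insert γ).mono fun x hx => by
      rcases (hcon x hx).lt_or_eq with h | h
      · exact Or.inr h
      · exact Or.inl h)
  choose G hG1 hG2 using h1
  have h2 : ∀ a : X, ∃ δ, a < δ ∧ ∀ γ < δ, ∃ x ∈ S, γ < x ∧ x < δ := by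
    intro a
    obtain ⟨δ, h, h'⟩ := exists_closed hc hu G a
    exact ⟨δ, h, fun γ hγ => ⟨G γ, hG1 γ, hG2 γ, h' γ hγ⟩⟩
  choose D hD1 hD2 using h2
  obtain ⟨a₀⟩ : Nonempty X := by
    by_contra hcon
    rw [not_nonempty_iff] at hcon
    exact hu (by rw [univ_eq_empty_iff.2 hcon]; exact countable_empty)
  let f : ℕ → X := fun n => D^[n + 1] a₀
  have hf : StrictMono f := strictMono_nat_of_lt_succ fun n => by
    simp only [f]
    rw [Function.iterate_succ_apply' D (n + 1)]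
    exact hD1 _
  obtain ⟨δ, hδ⟩ := exists_bound hc hu (countable_range f)
  refine ⟨S ∩ Iio δ, inter_subset_left, (hc δ).mono inter_subset_right, ?_⟩
  rintro ⟨F, hF⟩
  obtain ⟨x, ⟨n, rfl⟩, hn⟩ := (Set.infinite_range_of_injective hf.injective).exists_notMem_finset F
  have hfn : f n = D (D^[n] a₀) := by
    simp only [f]; rw [Function.iterate_succ_apply']
  obtain ⟨m, hm, hm'⟩ := bound_of_notMem hC1 hC2 (δ := f n) ⟨_, by rw [hfn]; exact hD1 _⟩ F hn
  have h3 := hD2 (D^[n] a₀)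
  rw [← hfn] at h3
  obtain ⟨x, hx, hx1, hx2⟩ := h3 m hm
  exact absurd (hm' x hx2 (hF ⟨hx, hx2.trans (hδ _ ⟨n, rfl⟩)⟩)) (not_le.2 hx1)

/-- Below each `δ` the ideal of small sets is countably generated. -/
theorem exists_generators (hc : ∀ a : X, (Iio a).Countable)
    (hC2 : ∀ δ, ∀ γ < δ, (C δ ∩ Iio γ).Finite) (δ : X) :
    ∃ A : ℕ → Set X, (∀ n, Small C (A n)) ∧
      ∀ A', Small C A' → ∃ m, ∀ n ≥ m, A' ∩ Iio δ ⊆ A n := by
  classical
  obtain ⟨d, hd⟩ := ((hc δ).insert δ).exists_eq_range ⟨δ, mem_insert _ _⟩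
  let F : ℕ → Finset X := fun n => (Finset.range (n + 1)).image d
  have hF : ∀ T : Finset X, (∀ x ∈ T, x ≤ δ) → ∃ m, ∀ n ≥ m, T ⊆ F n := by
    intro T
    induction T using Finset.induction_on with
    | empty => exact fun _ => ⟨0, fun n _ => Finset.empty_subset _⟩
    | insert x T hx ih =>
      intro h
      obtain ⟨m, hm⟩ := ih fun y hy => h y (Finset.mem_insert_of_mem hy)
      have hxr : x ∈ range d := by
        rw [← hd]
        rcases (h x (Finset.mem_insert_self _ _)).lt_or_eq with h | h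
        · exact Or.inr h
        · exact Or.inl h
      obtain ⟨i, rfl⟩ := hxr
      refine ⟨max m i, fun n hn => Finset.insert_subset ?_ (hm n (le_of_max_le_left hn))⟩
      exact Finset.mem_image_of_mem _ (Finset.mem_range.2
        (Nat.lt_succ_of_le (le_of_max_le_right hn)))
  refine ⟨fun n => (F n : Set X) ∪ ⋃ γ ∈ F n, C γ, fun n => ⟨F n, Subset.rfl⟩, ?_⟩
  rintro A' ⟨T, hT⟩
  have hfin : ∀ T : Finset X, ∃ T' : Finset X, (∀ x ∈ T', x ≤ δ) ∧
      ((T : Set X) ∪ ⋃ γ ∈ T, C γ) ∩ Iio δ ⊆ (T' : Set X) ∪ ⋃ γ ∈ T', C γ := by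
    intro T
    induction T using Finset.induction_on with
    | empty => exact ⟨∅, fun x hx => absurd hx (Finset.notMem_empty x), fun x hx => by
        simp at hx⟩
    | insert γ T hγ ih =>
      obtain ⟨T', hT'1, hT'2⟩ := ih
      have h1 : ∃ T'' : Finset X, (∀ x ∈ T'', x ≤ δ) ∧
          ∀ x < δ, x = γ ∨ x ∈ C γ → x ∈ (T'' : Set X) ∪ ⋃ γ ∈ T'', C γ := by
        rcases le_or_gt γ δ with h | h
        · refine ⟨{γ}, fun x hx => by rwa [Finset.mem_singleton.1 hx], ?_⟩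
          rintro x _ (rfl | hx)
          · exact Or.inl (by simp)
          · exact Or.inr (mem_iUnion₂.2 ⟨γ, Finset.mem_singleton_self _, hx⟩)
        · refine ⟨(hC2 γ δ h).toFinset, fun x hx => ?_, ?_⟩
          · rw [Set.Finite.mem_toFinset] at hx
            exact hx.2.le
          · rintro x hx (rfl | hxC)
            · exact absurd hx (not_lt.2 h.le)
            · refine Or.inl ?_
              rw [Set.Finite.coe_toFinset]
              exact ⟨hxC, hx⟩
      obtain ⟨T'', hT''1, hT''2⟩ := h1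
      refine ⟨T' ∪ T'', fun x hx => ?_, ?_⟩
      · rcases Finset.mem_union.1 hx with hx | hx
        · exact hT'1 x hx
        · exact hT''1 x hx
      have hmono : ∀ T₁ T₂ : Finset X, T₁ ⊆ T₂ →
          ((T₁ : Set X) ∪ ⋃ γ ∈ T₁, C γ) ⊆ (T₂ : Set X) ∪ ⋃ γ ∈ T₂, C γ := by
        intro T₁ T₂ h x hx
        rcases hx with hx | hx
        · exact Or.inl (h hx)
        · obtain ⟨γ, hγ, hx⟩ := mem_iUnion₂.1 hx
          exact Or.inr (mem_iUnion₂.2 ⟨γ, h hγ, hx⟩)
      rintro x ⟨hx | hx, hxδ⟩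
      · rw [Finset.mem_coe, Finset.mem_insert] at hx
        rcases hx with hx | hx
        · exact hmono _ _ Finset.subset_union_right (hT''2 x hxδ (Or.inl hx))
        · exact hmono _ _ Finset.subset_union_left (hT'2 ⟨Or.inl hx, hxδ⟩)
      · obtain ⟨γ', hγ', hx'⟩ := mem_iUnion₂.1 hx
        rw [Finset.mem_insert] at hγ'
        rcases hγ' with hγ' | hγ'
        · rw [hγ'] at hx'
          exact hmono _ _ Finset.subset_union_right (hT''2 x hxδ (Or.inr hx'))
        · exact hmono _ _ Finset.subset_union_left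
            (hT'2 ⟨Or.inr (mem_iUnion₂.2 ⟨γ', hγ', hx'⟩), hxδ⟩)
  obtain ⟨T', hT'1, hT'2⟩ := hfin T
  obtain ⟨m, hm⟩ := hF T' hT'1
  refine ⟨m, fun n hn => ?_⟩
  rintro x ⟨hx, hxδ⟩
  rcases hT'2 ⟨hT hx, hxδ⟩ with h | h
  · exact Or.inl (hm n hn h)
  · obtain ⟨γ, hγ, hx⟩ := mem_iUnion₂.1 h
    exact Or.inr (mem_iUnion₂.2 ⟨γ, hm n hn hγ, hx⟩)

omit [WellFoundedLT X] in
theorem list_bound {δ : X} (hδ : ∃ a, a < δ) (s : List X) (hs : ∀ x ∈ s, x < δ) :
    ∃ γ < δ, ∀ x ∈ s, x ≤ γ := by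
  induction s with
  | nil =>
    obtain ⟨a, ha⟩ := hδ
    exact ⟨a, ha, fun x hx => by simp at hx⟩
  | cons y s ih =>
    obtain ⟨γ, hγ, h⟩ := ih fun x hx => hs x (List.mem_cons_of_mem _ hx)
    refine ⟨max y γ, max_lt (hs y List.mem_cons_self) hγ, fun x hx => ?_⟩
    rcases List.mem_cons.1 hx with rfl | hx
    · exact le_max_left _ _
    · exact (h x hx).trans (le_max_right _ _)

/-- A countable set attached to every finite sequence: there is a bound for all finite sequences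
below `γ`. -/
theorem exists_list_bound (hc : ∀ a : X, (Iio a).Countable) (hu : ¬ (univ : Set X).Countable)
    (D : List X → Set X) (hD : ∀ s, (D s).Countable) (γ : X) :
    ∃ b, ∀ s : List X, (∀ x ∈ s, x ≤ γ) → ∀ y ∈ D s, y < b := by
  have : Countable (Iic γ) := by
    have h : (Iic γ).Countable := ((hc γ).insert γ).mono fun x hx => by
      rcases (mem_Iic.1 hx).lt_or_eq with h | h
      · exact Or.inr h
      · exact Or.inl h
    exact h.to_subtype
  have hcount : (⋃ s : List (Iic γ), D (s.map Subtype.val)).Countable :=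
    countable_iUnion fun s => hD _
  obtain ⟨b, hb⟩ := exists_bound hc hu hcount
  refine ⟨b, fun s hs y hy => hb y ?_⟩
  refine mem_iUnion.2 ⟨s.pmap (fun x hx => (⟨x, hx⟩ : Iic γ)) hs, ?_⟩
  rwa [List.map_pmap, List.pmap_eq_map, List.map_id'']
  intro x; rfl

section Game

variable [TopologicalSpace X] {B : ℕ → Set X}

omit [WellFoundedLT X] in
theorem nonempty_diff (hc : ∀ a : X, (Iio a).Countable) (hC1 : ∀ γ, C γ ⊆ Iio γ)
    (hBu : ∀ k, ¬ (B k).Countable) {A : Set X} (hA : Small C A) (k : ℕ) :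
    (B k \ A).Nonempty := by
  by_contra hcon
  rw [not_nonempty_iff_eq_empty, diff_eq_empty] at hcon
  exact hBu k ((hA.countable hc hC1).mono hcon)

/-- The list of the points `x 0, …, x (n - 1)`, the last one first. -/
def previous {Y : Type} (x : ℕ → Y) : ℕ → List Y
  | 0 => []
  | n + 1 => x n :: previous x n

theorem exists_nondense (hc : ∀ a : X, (Iio a).Countable) (hu : ¬ (univ : Set X).Countable)
    (hC1 : ∀ γ, C γ ⊆ Iio γ)
    (hC3 : ∀ δ, Good B δ → ∀ k, ∀ γ < δ, ∃ c ∈ C δ, c ∈ B k ∧ γ < c)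
    (hBu : ∀ k, ¬ (B k).Countable)
    (hopen : ∀ k A, Small C A → IsOpen (B k \ A))
    (hbase : ∀ W : Set X, IsOpen W → W.Nonempty → ∃ k A, Small C A ∧ B k \ A ⊆ W)
    (O : List X → Set X) (hO : ∀ s, IsOpen (O s) ∧ (O s).Nonempty) :
    ∃ x : ℕ → X, (∀ n, x n ∈ O (previous x n)) ∧ ¬ Dense (range x) := by
  have h1 : ∀ s, ∃ k A, Small C A ∧ B k \ A ⊆ O s := fun s => hbase _ (hO s).1 (hO s).2
  choose k A hA hkA using h1
  choose G1 hG1 using exists_list_bound hc hu A fun s => (hA s).countable hc hC1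
  have hG2 : ∀ γ : X, ∃ b, ∀ k, ∃ x ∈ B k, γ < x ∧ x < b := by
    intro γ
    have h2 : ∀ k, ∃ x ∈ B k, γ < x := by
      intro k
      by_contra hcon
      push Not at hcon
      exact hBu k (((hc γ).insert γ).mono fun x hx => by
        rcases (hcon x hx).lt_or_eq with h | h
        · exact Or.inr h
        · exact Or.inl h)
    choose w hw1 hw2 using h2
    obtain ⟨b, hb⟩ := exists_bound hc hu (countable_range w)
    exact ⟨b, fun k => ⟨w k, hw1 k, hw2 k, hb _ ⟨k, rfl⟩⟩⟩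
  choose G2 hG2 using hG2
  obtain ⟨a₀⟩ : Nonempty X := by
    by_contra hcon
    rw [not_nonempty_iff] at hcon
    exact hu (by rw [univ_eq_empty_iff.2 hcon]; exact countable_empty)
  obtain ⟨δ, haδ, hδ⟩ := exists_closed hc hu (fun γ => max (G1 γ) (G2 γ)) a₀
  have hgood : Good B δ := by
    refine ⟨⟨a₀, haδ⟩, fun γ hγ k => ?_⟩
    obtain ⟨x, hx, hx1, hx2⟩ := hG2 γ k
    exact ⟨x, hx, hx1, hx2.trans ((le_max_right _ _).trans_lt (hδ γ hγ))⟩
  have hp : ∀ s : List X, (∀ x ∈ s, x < δ) → ∃ c, c ∈ C δ ∧ c ∈ B (k s) \ A s := by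
    intro s hs
    obtain ⟨γ, hγ, hsγ⟩ := list_bound ⟨a₀, haδ⟩ s hs
    have hG1δ : G1 γ < δ := (le_max_left _ _).trans_lt (hδ γ hγ)
    obtain ⟨c, hc1, hc2, hc3⟩ := hC3 δ hgood (k s) (G1 γ) hG1δ
    exact ⟨c, hc1, hc2, fun hcA => absurd (hG1 γ s hsγ c hcA) (not_lt.2 hc3.le)⟩
  have : Nonempty X := ⟨a₀⟩
  choose! pick hpick1 hpick2 using hp
  let s : ℕ → List X := fun n => Nat.rec [] (fun _ s => pick s :: s) n
  have hs0 : s 0 = [] := rfl
  have hs1 : ∀ n, s (n + 1) = pick (s n) :: s n := fun n => rfl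
  have hsδ : ∀ n, ∀ x ∈ s n, x < δ := by
    intro n
    induction n with
    | zero => intro x hx; rw [hs0] at hx; simp at hx
    | succ n ih =>
      intro x hx
      rw [hs1, List.mem_cons] at hx
      rcases hx with rfl | hx
      · exact hC1 δ (hpick1 _ ih)
      · exact ih x hx
  have hh : ∀ n, previous (fun n => pick (s n)) n = s n := by
    intro n
    induction n with
    | zero => rfl
    | succ n ih => rw [previous, ih]
  refine ⟨fun n => pick (s n), fun n => ?_, fun hdense => ?_⟩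
  · rw [hh]; exact hkA _ (hpick2 _ (hsδ n))
  · obtain ⟨x, hx1, n, rfl⟩ := hdense.inter_open_nonempty _ (hopen 0 _ (small_C δ))
      (nonempty_diff hc hC1 hBu (small_C δ) 0)
    exact hx1.2 (hpick1 _ (hsδ n))

theorem exists_dense (hc : ∀ a : X, (Iio a).Countable) (hu : ¬ (univ : Set X).Countable)
    (hC1 : ∀ γ, C γ ⊆ Iio γ) (hC2 : ∀ δ, ∀ γ < δ, (C δ ∩ Iio γ).Finite)
    (hBu : ∀ k, ¬ (B k).Countable)
    (hopen : ∀ k A, Small C A → IsOpen (B k \ A))
    (hbase : ∀ W : Set X, IsOpen W → W.Nonempty → ∃ k A, Small C A ∧ B k \ A ⊆ W)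
    (R : List X → Set X) (hR : ∀ s, Dense (R s)) :
    ∃ x : ℕ → X, (∀ n, x n ∈ R (previous x n)) ∧ Dense (range x) := by
  have h1 : ∀ s, ∃ D : Set X, D.Countable ∧ D ⊆ R s ∧
      ∀ k A, Small C A → ∃ y ∈ D, y ∈ B k \ A := by
    intro s
    have hR' : ∀ k, ¬ Small C (R s ∩ B k) := by
      intro k hsm
      obtain ⟨y, hy1, hy2⟩ := (hR s).inter_open_nonempty _ (hopen k _ hsm)
        (nonempty_diff hc hC1 hBu hsm k)
      exact hy1.2 ⟨hy2, hy1.1⟩
    choose S hS1 hS2 hS3 using fun k => exists_countable_not_small hc hu hC1 hC2 (hR' k)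
    refine ⟨⋃ k, S k, countable_iUnion hS2, fun y hy => ?_, fun k A hA => ?_⟩
    · obtain ⟨k, hk⟩ := mem_iUnion.1 hy
      exact (hS1 k hk).1
    · by_contra hcon
      push Not at hcon
      refine hS3 k (hA.mono fun y hy => ?_)
      by_contra hyA
      exact hcon y (mem_iUnion.2 ⟨k, hy⟩) ⟨(hS1 k hy).2, hyA⟩
  choose D hD1 hD2 hD3 using h1
  choose G hG using exists_list_bound hc hu D hD1
  obtain ⟨a₀⟩ : Nonempty X := by
    by_contra hcon
    rw [not_nonempty_iff] at hcon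
    exact hu (by rw [univ_eq_empty_iff.2 hcon]; exact countable_empty)
  obtain ⟨δ, haδ, hδ⟩ := exists_closed hc hu G a₀
  obtain ⟨A, hA, hAδ⟩ := exists_generators (C := C) hc hC2 δ
  choose pick hpick1 hpick2 using fun (n : ℕ) (s : List X) =>
    hD3 s (Nat.unpair n).1 (A n) (hA n)
  let s : ℕ → List X := fun n => Nat.rec [] (fun n s => pick n s :: s) n
  have hs0 : s 0 = [] := rfl
  have hs1 : ∀ n, s (n + 1) = pick n (s n) :: s n := fun n => rfl
  have hlt : ∀ n t, (∀ x ∈ t, x < δ) → pick n t < δ := by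
    intro n t ht
    obtain ⟨γ, hγ, htγ⟩ := list_bound ⟨a₀, haδ⟩ t ht
    exact (hG γ t htγ _ (hpick1 n t)).trans (hδ γ hγ)
  have hsδ : ∀ n, ∀ x ∈ s n, x < δ := by
    intro n
    induction n with
    | zero => intro x hx; rw [hs0] at hx; simp at hx
    | succ n ih =>
      intro x hx
      rw [hs1, List.mem_cons] at hx
      rcases hx with rfl | hx
      · exact hlt n _ ih
      · exact ih x hx
  have hh : ∀ n, previous (fun n => pick n (s n)) n = s n := by
    intro n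
    induction n with
    | zero => rfl
    | succ n ih => rw [previous, ih]
  refine ⟨fun n => pick n (s n), fun n => ?_, ?_⟩
  · rw [hh]; exact hD2 _ (hpick1 _ _)
  rw [dense_iff_inter_open]
  intro W hW hWne
  obtain ⟨k, A', hA', hkA'⟩ := hbase W hW hWne
  obtain ⟨m, hm⟩ := hAδ A' hA'
  have hp := hpick2 (Nat.pair k m) (s (Nat.pair k m))
  refine ⟨pick (Nat.pair k m) (s (Nat.pair k m)), hkA' ⟨?_, fun hmem => hp.2 ?_⟩, _, rfl⟩
  · have := hp.1
    rwa [Nat.unpair_pair] at this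
  · exact hm _ (Nat.right_le_pair k m) ⟨hmem, hlt _ _ (hsδ _)⟩

end Game

end Abstract

/-- The type of the countable ordinals. -/
abbrev W1 : Type := (Ordinal.omega 1 : Ordinal.{0}).ToType

open Cardinal in
theorem mk_W1 : #W1 = ℵ_ 1 := by
  rw [mk_toType, Ordinal.card_omega]

open Cardinal in
theorem countable_Iio_W1 (a : W1) : (Iio a).Countable := by
  have h1 : #(Iio a) < ℵ_ 1 := by
    have := Cardinal.mk_Iio_lt (α := W1) a (by rw [mk_W1, Ordinal.type_toType, ord_aleph])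
    rwa [mk_W1] at this
  rw [← Cardinal.succ_aleph0, Order.lt_succ_iff] at h1
  exact Cardinal.le_aleph0_iff_set_countable.1 h1

open Cardinal in
theorem not_countable_W1 : ¬ (univ : Set W1).Countable := by
  intro h
  have := Cardinal.le_aleph0_iff_set_countable.2 h
  rw [mk_univ, mk_W1, ← Cardinal.succ_aleph0] at this
  exact absurd this (not_le.2 (Order.lt_succ _))

open Cardinal in
theorem exists_injection : ∃ j : W1 → ℝ, Function.Injective j := by
  have : #W1 ≤ #ℝ := by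
    rw [mk_W1, Cardinal.mk_real]; exact Cardinal.aleph_one_le_continuum
  obtain ⟨j⟩ := this
  exact ⟨j, j.injective⟩

/-- A space on which every strategy of the open set player, and every strategy of the dense set
player, can be defeated. -/
theorem exists_space : ∃ (X : Type) (_ : TopologicalSpace X),
    (∃ f : X → ℝ, Continuous f ∧ Function.Injective f) ∧
    (∀ O : List X → Set X, (∀ s, IsOpen (O s) ∧ (O s).Nonempty) →
      ∃ x : ℕ → X, (∀ n, x n ∈ O (previous x n)) ∧ ¬ Dense (range x)) ∧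
    ∀ R : List X → Set X, (∀ s, Dense (R s)) →
      ∃ x : ℕ → X, (∀ n, x n ∈ R (previous x n)) ∧ Dense (range x) := by
  obtain ⟨j, hj⟩ := exists_injection
  let b := TopologicalSpace.countableBasis ℝ
  let N : Set W1 := ⋃ V ∈ {V ∈ b | (j ⁻¹' V).Countable}, j ⁻¹' V
  have hN : N.Countable := by
    refine Countable.biUnion ((TopologicalSpace.countable_countableBasis ℝ).mono
      (fun V hV => hV.1)) fun V hV => hV.2
  let X := {α : W1 // α ∉ N}
  let f : X → ℝ := fun x => j x.1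
  have hf : Function.Injective f := hj.comp Subtype.val_injective
  have hc : ∀ a : X, (Iio a).Countable := fun a =>
    ((countable_Iio_W1 a.1).preimage Subtype.val_injective).mono fun x hx => hx
  have hu : ¬ (univ : Set X).Countable := by
    intro h
    refine not_countable_W1 (((h.image Subtype.val).union hN).mono fun x _ => ?_)
    by_cases hx : x ∈ N
    · exact Or.inr hx
    · exact Or.inl ⟨⟨x, hx⟩, trivial, rfl⟩
  have hVu : ∀ V ∈ b, (f ⁻¹' V).Nonempty → ¬ (f ⁻¹' V).Countable := by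
    rintro V hV ⟨x, hx⟩ hcount
    refine x.2 (mem_biUnion (x := V) ⟨hV, ?_⟩ hx)
    refine ((hcount.image Subtype.val).union hN).mono fun y hy => ?_
    by_cases hyN : y ∈ N
    · exact Or.inr hyN
    · exact Or.inl ⟨⟨y, hyN⟩, hy, rfl⟩
  let 𝒱 : Set (Set X) := {U | ∃ V ∈ b, U = f ⁻¹' V ∧ U.Nonempty}
  have h𝒱c : 𝒱.Countable := ((TopologicalSpace.countable_countableBasis ℝ).image
    (fun V => f ⁻¹' V)).mono (by rintro U ⟨V, hV, rfl, -⟩; exact ⟨V, hV, rfl⟩)
  have hbasis := TopologicalSpace.isBasis_countableBasis ℝ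
  have h𝒱ne : 𝒱.Nonempty := by
    obtain ⟨x⟩ : Nonempty X := by
      by_contra hcon
      rw [not_nonempty_iff] at hcon
      exact hu (by rw [univ_eq_empty_iff.2 hcon]; exact countable_empty)
    obtain ⟨V, hV, hxV, -⟩ := hbasis.exists_subset_of_mem_open (mem_univ (f x)) isOpen_univ
    exact ⟨f ⁻¹' V, V, hV, rfl, x, hxV⟩
  obtain ⟨B, hB⟩ := h𝒱c.exists_eq_range h𝒱ne
  have hB𝒱 : ∀ k, B k ∈ 𝒱 := fun k => hB ▸ mem_range_self k
  have hBu : ∀ k, ¬ (B k).Countable := by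
    intro k
    obtain ⟨V, hV, hVB, hne⟩ := hB𝒱 k
    rw [hVB] at hne ⊢
    exact hVu V hV hne
  let t : TopologicalSpace X := TopologicalSpace.induced f inferInstance
  have htB : ∀ k, t.IsOpen (B k) := by
    intro k
    obtain ⟨V, hV, hVB, -⟩ := hB𝒱 k
    rw [hVB]
    exact ⟨V, hbasis.isOpen hV, rfl⟩
  have htbase : ∀ U : Set X, t.IsOpen U → U.Nonempty → ∃ k, B k ⊆ U := by
    rintro U ⟨V, hV, rfl⟩ ⟨x, hx⟩
    obtain ⟨V', hV', hxV', hVV'⟩ := hbasis.exists_subset_of_mem_open hx hV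
    have : f ⁻¹' V' ∈ range B := hB ▸ ⟨V', hV', rfl, x, hxV'⟩
    obtain ⟨k, hk⟩ := this
    exact ⟨k, by rw [hk]; exact preimage_mono hVV'⟩
  choose C hC1 hC2 hC3 using exists_ladder hc B
  have hopen : ∀ k A, Small C A → (newTop C t).IsOpen (B k \ A) := fun k A hA x hx =>
    ⟨B k, htB k, hx.1, A, hA, Subset.rfl⟩
  have hbase : ∀ W : Set X, (newTop C t).IsOpen W → W.Nonempty →
      ∃ k A, Small C A ∧ B k \ A ⊆ W := by
    rintro W hW ⟨x, hx⟩
    obtain ⟨U, hU, hxU, A, hA, hUA⟩ := hW x hx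
    obtain ⟨k, hk⟩ := htbase U hU ⟨x, hxU⟩
    exact ⟨k, A, hA, (diff_subset_diff_left hk).trans hUA⟩
  refine ⟨X, newTop C t, ⟨f, ?_, hf⟩, ?_, ?_⟩
  · refine @Continuous.mk _ _ (newTop C t) _ f fun V hV x hx => ?_
    exact ⟨f ⁻¹' V, ⟨V, hV, rfl⟩, hx, ∅, small_empty, diff_subset⟩
  · exact @exists_nondense X _ _ C (newTop C t) B hc hu hC1 hC3 hBu hopen hbase
  · exact @exists_dense X _ _ C (newTop C t) B hc hu hC1 hC2 hBu hopen hbase

end Pool.Agent.Lib_MP_f38362_gt.OpenPoint
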