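import Mathlib
import Pool.Agent.Lib_MP_f38362_gt.OpenPoint

/-!
# A countable zero-dimensional Hausdorff space from a family of subsets of `ℕ × ℕ`
-/

open Set Topology

namespace Pool.Agent.Lib_MP_f38362_gt.Regular

open Pool.Agent.Lib_MP_f38362_gt.OpenPoint (previous)

/-- The finite partial functions from `ℕ` to `ℕ`. -/
def Pt : Type := {s : Finset (ℕ × ℕ) // ∀ p ∈ s, ∀ q ∈ s, p.1 = q.1 → p = q}

instance : Countable Pt := by unfold Pt; infer_instance

variable {I : Type}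

/-- The basic neighbourhoods of `a`. -/
def T (f : I → Set (ℕ × ℕ)) (a : Pt) (F : Finset I) (m : ℕ) : Set Pt :=
  {b | a.1 ⊆ b.1 ∧ ∀ p ∈ b.1, p ∉ a.1 → m ≤ p.1 ∧ ∀ α ∈ F, p ∉ f α}

variable {f : I → Set (ℕ × ℕ)}

theorem self_mem_T (a : Pt) (F : Finset I) (m : ℕ) : a ∈ T f a F m :=
  ⟨Finset.Subset.refl _, fun _ hp hp' => absurd hp hp'⟩

theorem T_subset {a b : Pt} {F : Finset I} {m : ℕ} (hb : b ∈ T f a F m) : T f b F m ⊆ T f a F m := by
  intro c hc
  refine ⟨hb.1.trans hc.1, fun p hp hpa => ?_⟩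
  by_cases hpb : p ∈ b.1
  · exact hb.2 p hpb hpa
  · exact hc.2 p hp hpb

theorem T_mono {a : Pt} {F F' : Finset I} {m m' : ℕ} (hF : F ⊆ F') (hm : m ≤ m') :
    T f a F' m' ⊆ T f a F m := fun _ hc =>
  ⟨hc.1, fun p hp hpa => ⟨hm.trans (hc.2 p hp hpa).1, fun α hα => (hc.2 p hp hpa).2 α (hF hα)⟩⟩

/-- The topology. -/
@[reducible] def space (f : I → Set (ℕ × ℕ)) : TopologicalSpace Pt where
  IsOpen W := ∀ a ∈ W, ∃ F m, T f a F m ⊆ W
  isOpen_univ := fun _ _ => ⟨∅, 0, subset_univ _⟩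
  isOpen_inter := by
    classical
    intro W W' hW hW' a ha
    obtain ⟨F, m, h⟩ := hW a ha.1
    obtain ⟨F', m', h'⟩ := hW' a ha.2
    exact ⟨F ∪ F', max m m', subset_inter
      ((T_mono Finset.subset_union_left (le_max_left _ _)).trans h)
      ((T_mono Finset.subset_union_right (le_max_right _ _)).trans h')⟩
  isOpen_sUnion := by
    intro S hS a ha
    obtain ⟨W, hW, haW⟩ := ha
    obtain ⟨F, m, h⟩ := hS W hW a haW
    exact ⟨F, m, h.trans (subset_sUnion_of_mem hW)⟩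

theorem isOpen_T (a : Pt) (F : Finset I) (m : ℕ) : IsOpen[space f] (T f a F m) :=
  fun _ hb => ⟨F, m, T_subset hb⟩

theorem isClosed_T (a : Pt) (F : Finset I) (m : ℕ) : IsClosed[space f] (T f a F m) := by
  let _ := space f
  rw [← isOpen_compl_iff]
  intro b hb
  by_cases h1 : a.1 ⊆ b.1
  · have h2 : ∃ p ∈ b.1, p ∉ a.1 ∧ ¬ (m ≤ p.1 ∧ ∀ α ∈ F, p ∉ f α) := by
      by_contra hcon
      apply hb
      refine ⟨h1, fun p hp hpa => ?_⟩
      by_contra h3
      exact hcon ⟨p, hp, hpa, h3⟩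
    obtain ⟨p, hp, hpa, h3⟩ := h2
    exact ⟨∅, 0, fun c hc hc' => h3 (hc'.2 p (hc.1 hp) hpa)⟩
  · obtain ⟨q, hq, hqb⟩ := Finset.not_subset.1 h1
    refine ⟨∅, q.1 + 1, fun c hc hc' => ?_⟩
    have := (hc.2 q (hc'.1 hq) hqb).1
    omega

theorem t2 : @T2Space Pt (space f) := by
  let _ := space f
  have key : ∀ a b : Pt, ¬ a.1 ⊆ b.1 →
      ∃ u v : Set Pt, IsOpen u ∧ IsOpen v ∧ a ∈ u ∧ b ∈ v ∧ Disjoint u v := by
    intro a b h
    obtain ⟨q, hq, hqb⟩ := Finset.not_subset.1 h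
    refine ⟨T f a ∅ 0, T f b ∅ (q.1 + 1), isOpen_T _ _ _, isOpen_T _ _ _, self_mem_T _ _ _,
      self_mem_T _ _ _, Set.disjoint_left.2 fun c hc hc' => ?_⟩
    have := (hc'.2 q (hc.1 hq) hqb).1
    omega
  refine ⟨fun a b hab => ?_⟩
  by_cases h : a.1 ⊆ b.1
  · have h' : ¬ b.1 ⊆ a.1 := fun h' => hab (Subtype.ext (h.antisymm h'))
    obtain ⟨u, v, hu, hv, hb, ha, hd⟩ := key b a h'
    exact ⟨v, u, hv, hu, ha, hb, hd.symm⟩
  · exact key a b h

theorem basis : @TopologicalSpace.IsTopologicalBasis Pt (space f)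
    {U : Set Pt | @IsClopen Pt (space f) U} := by
  let _ := space f
  refine TopologicalSpace.isTopologicalBasis_of_isOpen_of_nhds (fun u hu => hu.2) ?_
  intro a W ha hW
  obtain ⟨F, m, h⟩ := hW a ha
  exact ⟨T f a F m, ⟨isClosed_T _ _ _, isOpen_T _ _ _⟩, self_mem_T _ _ _, h⟩

theorem dense_of (D : Set Pt) (h : ∀ a F m, ∃ x ∈ D, x ∈ T f a F m) : @Dense Pt (space f) D := by
  let _ := space f
  rw [dense_iff_inter_open]
  intro W hW ⟨a, ha⟩
  obtain ⟨F, m, hFm⟩ := hW a ha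
  obtain ⟨x, hx, hx'⟩ := h a F m
  exact ⟨x, hFm hx', hx⟩

/-- The strong almost disjointness property of the family used to beat the open player. -/
def AD (f : I → Set (ℕ × ℕ)) : Prop :=
  ∀ α, ∀ G : Finset I, α ∉ G → ∀ N, ∃ p ∈ f α, N ≤ p.1 ∧ ∀ β ∈ G, p ∉ f β

/-- The property of the family used to beat the player who picks dense sets. -/
def Core (f : I → Set (ℕ × ℕ)) : Prop :=
  ∀ D : List Pt → Set Pt, (∀ s a F m, ∃ x ∈ D s, x ∈ T f a F m) →
    ∃ x : ℕ → Pt, (∀ n, x n ∈ D (previous x n)) ∧ ∀ a F m, ∃ n, x n ∈ T f a F m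

/-- the empty function -/
def zero : Pt := ⟨∅, by simp⟩

/-- `a` together with a pair above `a`. -/
theorem exists_insert (a : Pt) : ∃ N, ∀ p : ℕ × ℕ, N ≤ p.1 →
    ∃ c : Pt, ∀ q, q ∈ c.1 ↔ q = p ∨ q ∈ a.1 := by
  classical
  refine ⟨a.1.sup (fun q => q.1 + 1), fun p hp => ?_⟩
  have h1 : ∀ q ∈ a.1, q.1 < p.1 := fun q hq => by
    have := Finset.le_sup (f := fun q : ℕ × ℕ => q.1 + 1) hq
    omega
  refine ⟨⟨insert p a.1, ?_⟩, fun q => Finset.mem_insert⟩
  intro q hq r hr hqr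
  rcases Finset.mem_insert.1 hq with h | h <;> rcases Finset.mem_insert.1 hr with h' | h'
  · rw [h, h']
  · have := h1 r h'; rw [h] at hqr; omega
  · have := h1 q h; rw [h'] at hqr; omega
  · exact a.2 q h r h' hqr

/-- The player who picks nonempty open subsets of given open sets can play so that the union of
the picked sets is not dense. -/
theorem exists_nondense (hI : ¬ (univ : Set I).Countable) (hf : AD f)
    (O : List (Set Pt) → Set Pt) (hO : ∀ s, IsOpen[space f] (O s) ∧ (O s).Nonempty) :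
    ∃ V : ℕ → Set Pt, (∀ n, IsOpen[space f] (V n) ∧ (V n).Nonempty ∧ V n ⊆ O (previous V n)) ∧
      ¬ @Dense Pt (space f) (⋃ n, V n) := by
  classical
  let _ := space f
  have h1 : ∀ s, ∃ a F m, T f a F m ⊆ O s := by
    intro s
    obtain ⟨a, ha⟩ := (hO s).2
    obtain ⟨F, m, h⟩ := (hO s).1 a ha
    exact ⟨a, F, m, h⟩
  choose a F m hT using h1
  -- the countably many relevant histories
  let H : List Pt → List (Set Pt) := fun l => l.foldr (fun c S => T f c (F S) (m S) :: S) []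
  have hH : ∀ c l, H (c :: l) = T f c (F (H l)) (m (H l)) :: H l := fun c l => rfl
  have hcount : (⋃ l : List Pt, (F (H l) : Set I)).Countable :=
    countable_iUnion fun l => (F (H l)).countable_toSet
  obtain ⟨α, hα⟩ : ∃ α, α ∉ ⋃ l : List Pt, (F (H l) : Set I) := by
    by_contra hcon
    push Not at hcon
    exact hI (hcount.mono fun α _ => hcon α)
  have hα' : ∀ l, α ∉ F (H l) := fun l hl => hα (mem_iUnion.2 ⟨l, hl⟩)
  have h2 : ∀ l : List Pt, ∃ c : Pt, c ∈ T f (a (H l)) (F (H l)) (m (H l)) ∧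
      ∃ p ∈ c.1, p ∈ f α := by
    intro l
    obtain ⟨N, hN⟩ := exists_insert (a (H l))
    obtain ⟨p, hp, hpN, hpG⟩ := hf α (F (H l)) (hα' l) (max N (m (H l)))
    obtain ⟨c, hc⟩ := hN p ((le_max_left _ _).trans hpN)
    refine ⟨c, ⟨fun q hq => (hc q).2 (Or.inr hq), fun q hq hqa => ?_⟩, p, (hc p).2 (Or.inl rfl), hp⟩
    rcases (hc q).1 hq with h | h
    · rw [h]
      exact ⟨(le_max_right _ _).trans hpN, hpG⟩
    · exact absurd h hqa
  choose c hc1 hc2 using h2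
  -- the play
  let L : ℕ → List Pt := fun n => Nat.rec [] (fun _ l => c l :: l) n
  have hL : ∀ n, L (n + 1) = c (L n) :: L n := fun n => rfl
  let V : ℕ → Set Pt := fun n => T f (c (L n)) (F (H (L n))) (m (H (L n)))
  have hprev : ∀ n, previous V n = H (L n) := by
    intro n
    induction n with
    | zero => rfl
    | succ n ih => rw [previous, ih, hL, hH]
  refine ⟨V, fun n => ⟨isOpen_T _ _ _, ⟨_, self_mem_T _ _ _⟩, ?_⟩, fun hd => ?_⟩
  · rw [hprev]
    exact (T_subset (hc1 _)).trans (hT _)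
  · obtain ⟨x, hx, hx'⟩ := hd.inter_open_nonempty _ (isOpen_T (f := f) zero {α} 0)
      ⟨_, self_mem_T _ _ _⟩
    obtain ⟨n, hn⟩ := mem_iUnion.1 hx'
    obtain ⟨p, hp, hpα⟩ := hc2 (L n)
    exact (hx.2 p (hn.1 hp) (by simp [zero])).2 α (Finset.mem_singleton_self α) hpα

end Pool.Agent.Lib_MP_f38362_gt.Regular
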