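import Mathlib
import Pool.Agent.Lib_MP_f38362_gt.RegularSpace

/-!
# Three constructions of families: the cardinal characteristics of `ℵ₁` many reals
-/

open Set Filter

namespace Pool.Agent.Lib_MP_f38362_gt.Regular

open Pool.Agent.Lib_MP_f38362_gt.OpenPoint (previous exists_bound exists_closed)

variable {I : Type}

/-- codes of initial segments -/
def code (R : I → ℕ → Bool) (α : I) (n : ℕ) : ℕ := Encodable.encode ((List.range n).map (R α))

/-- The families of partial functions used below. -/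
def fam (r : I → Set ℕ) (u : I → ℕ → ℕ) (R : I → ℕ → Bool) (α : I) : Set (ℕ × ℕ) :=
  {p | p.1 ∈ r α ∧ p.2 = Nat.pair (u α p.1) (code R α p.1)}

theorem ad_fam {r : I → Set ℕ} {u : I → ℕ → ℕ} {R : I → ℕ → Bool} (hr : ∀ α, (r α).Infinite)
    (hR : Function.Injective R) : AD (fam r u R) := by
  intro α G hα N
  have h1 : ∀ β, ∃ k, β ∈ G → ∀ n, k < n → code R α n ≠ code R β n := by
    intro β
    by_cases hβ : β ∈ G
    · have hne : R α ≠ R β := fun h => hα (by rw [hR h]; exact hβ)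
      obtain ⟨k, hk⟩ := Function.ne_iff.1 hne
      refine ⟨k, fun _ n hn h => hk ?_⟩
      have h2 := Encodable.encode_injective h
      exact List.map_inj_left.1 h2 k (List.mem_range.2 hn)
    · exact ⟨0, fun h => absurd h hβ⟩
  choose k hk using h1
  obtain ⟨n, hn, hnN⟩ := (hr α).exists_gt (max N (G.sup k))
  refine ⟨(n, Nat.pair (u α n) (code R α n)), ⟨hn, rfl⟩, ?_, fun β hβ hp => ?_⟩
  · exact ((le_max_left _ _).trans_lt hnN).le
  · refine hk β hβ n (((Finset.le_sup hβ).trans (le_max_right _ _)).trans_lt hnN) ?_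
    have h3 : Nat.pair (u α n) (code R α n) = Nat.pair (u β n) (code R β n) := hp.2
    exact (Nat.pair_eq_pair.1 h3).2

/-- The bounding number is larger than the cardinality of `I`. -/
def BB (I : Type) : Prop := ∀ g : I → ℕ → ℕ, ∃ h : ℕ → ℕ, ∀ α, ∀ᶠ n in atTop, g α n ≤ h n

/-- Every family of functions indexed by `I` is guessed infinitely often by one function. -/
def PP (I : Type) : Prop := ∀ g : I → ℕ → ℕ, ∃ h : ℕ → ℕ, ∀ α, ∃ᶠ n in atTop, h n = g α n

theorem length_previous {Y : Type} (x : ℕ → Y) (n : ℕ) : (previous x n).length = n := by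
  induction n with
  | zero => rfl
  | succ n ih => rw [previous, List.length_cons, ih]

theorem exists_play {Y : Type} (pick : ℕ → List Y → Y) :
    ∃ x : ℕ → Y, ∀ n, x n = pick n (previous x n) := by
  let L : ℕ → List Y := fun n => Nat.rec [] (fun k l => pick k l :: l) n
  have hL : ∀ n, L (n + 1) = pick n (L n) :: L n := fun n => rfl
  have hh : ∀ n, previous (fun n => pick n (L n)) n = L n := by
    intro n
    induction n with
    | zero => rfl
    | succ n ih => rw [previous, ih, hL]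
  exact ⟨fun n => pick n (L n), fun n => by rw [hh]⟩

/-! ### First case -/

theorem core_A {f : I → Set (ℕ × ℕ)} (π : I → Pt × Finset I × ℕ) (hπ : Function.Surjective π)
    (hB : BB I) (hP : PP I) : Core f := by
  classical
  intro D hD
  choose H hH1 hH2 using hD
  obtain ⟨cd, hcd⟩ := exists_injective_nat (List Pt)
  have hfin : ∀ M, {s | cd s ≤ M}.Finite := fun M => (Set.finite_Iic M).preimage hcd.injOn
  let Bd : ℕ → Finset (List Pt) := fun M => (hfin M).toFinset
  have hBd : ∀ M s, s ∈ Bd M ↔ cd s ≤ M := fun M s => by simp [Bd]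
  let P : I → List Pt → Pt := fun i s => H s (π i).1 (π i).2.1 (π i).2.2
  have hPD : ∀ i s, P i s ∈ D s := fun i s => hH1 _ _ _ _
  have hPT : ∀ i s, P i s ∈ T f (π i).1 (π i).2.1 (π i).2.2 := fun i s => hH2 _ _ _ _
  obtain ⟨g, hg⟩ := hB (fun i M => (Bd M).sup (fun s => cd (P i s :: s)))
  let d : List Pt → Pt := fun s => H s zero ∅ 0
  let ν : ℕ → ℕ := fun k => Nat.rec (cd [])
    (fun _ M => max (max (g M) ((Bd M).sup (fun s => cd (d s :: s)))) (M + 1)) k
  have hν : ∀ k, ν (k + 1) = max (max (g (ν k)) ((Bd (ν k)).sup (fun s => cd (d s :: s))))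
    (ν k + 1) := fun k => rfl
  have hνm : StrictMono ν := strictMono_nat_of_lt_succ fun k => by
    rw [hν]; exact lt_of_lt_of_le (Nat.lt_succ_self _) (le_max_right _ _)
  let v : I → ℕ → Finset (List Pt × Pt) := fun i k => (Bd (ν k)).image (fun s => (s, P i s))
  have hv : ∀ i k s x, (s, x) ∈ v i k ↔ cd s ≤ ν k ∧ x = P i s := by
    intro i k s x
    simp only [v, Finset.mem_image, hBd, Prod.mk.injEq]
    constructor
    · rintro ⟨s', h1, h2, h3⟩
      rw [← h2]; exact ⟨h1, h3.symm⟩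
    · rintro ⟨h1, h2⟩
      exact ⟨s, h1, rfl, h2.symm⟩
  obtain ⟨c, hc⟩ := exists_injective_nat (Finset (List Pt × Pt))
  obtain ⟨h, hh⟩ := hP (fun i k => c (v i k))
  have hw : ∀ k, ∃ w : Finset (List Pt × Pt), ∀ i, h k = c (v i k) → w = v i k := by
    intro k
    by_cases hk : ∃ i, h k = c (v i k)
    · obtain ⟨i, hi⟩ := hk
      exact ⟨v i k, fun j hj => hc (hi.symm.trans hj)⟩
    · exact ⟨∅, fun i hi => absurd ⟨i, hi⟩ hk⟩
  choose w hw using hw
  have hp : ∀ (k : ℕ) (s : List Pt), ∃ x : Pt, x ∈ D s ∧ (cd s ≤ ν k → cd (x :: s) ≤ ν (k + 1)) ∧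
      ∀ i, w k = v i k → cd s ≤ ν k → cd (P i s :: s) ≤ ν (k + 1) → x = P i s := by
    intro k s
    rcases Classical.em (∃ i : I, w k = v i k ∧ cd s ≤ ν k ∧ cd (P i s :: s) ≤ ν (k + 1))
      with hx | hx
    · obtain ⟨i, h1, h2, h3⟩ := hx
      refine ⟨P i s, hPD _ _, fun _ => h3, fun j hj _ _ => ?_⟩
      have : (s, P i s) ∈ v j k := by
        rw [← hj, h1]; exact (hv _ _ _ _).2 ⟨h2, rfl⟩
      exact ((hv _ _ _ _).1 this).2
    · refine ⟨d s, hH1 _ _ _ _, fun hs => ?_, fun i h1 h2 h3 => absurd ⟨i, h1, h2, h3⟩ hx⟩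
      rw [hν]
      refine le_max_of_le_left (le_max_of_le_right ?_)
      exact Finset.le_sup (f := fun s => cd (d s :: s)) ((hBd _ _).2 hs)
  choose pick hpick1 hpick2 hpick3 using hp
  obtain ⟨x, hx⟩ := exists_play pick
  have hcdx : ∀ k, cd (previous x k) ≤ ν k := by
    intro k
    induction k with
    | zero => exact le_refl _
    | succ k ih =>
      rw [previous, hx]
      exact hpick2 _ _ ih
  refine ⟨x, fun n => by rw [hx]; exact hpick1 _ _, fun a F m => ?_⟩
  obtain ⟨i, hi⟩ := hπ (a, F, m)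
  have h1 : ∀ᶠ k in atTop, (Bd (ν k)).sup (fun s => cd (P i s :: s)) ≤ g (ν k) :=
    hνm.tendsto_atTop.eventually (hg i)
  obtain ⟨k, hk1, hk2⟩ := ((hh i).and_eventually h1).exists
  have h2 : x k = P i (previous x k) := by
    rw [hx k]
    refine hpick3 k _ i (hw k i hk1) (hcdx k) ?_
    rw [hν]
    refine le_max_of_le_left (le_max_of_le_left (le_trans ?_ hk2))
    exact Finset.le_sup (f := fun s => cd (P i s :: s)) ((hBd _ _).2 (hcdx k))
  refine ⟨k, ?_⟩
  have h3 := hPT i (previous x k)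
  rw [← h2, hi] at h3
  exact h3

/-! ### Second case -/

variable [LinearOrder I] [WellFoundedLT I]

omit [LinearOrder I] [WellFoundedLT I] in
theorem countable_finsets {S : Set I} (hS : S.Countable) :
    {F : Finset I | ∀ α ∈ F, α ∈ S}.Countable := by
  classical
  have := hS.to_subtype
  refine (countable_range (fun G : Finset ↥S => G.map (Function.Embedding.subtype _))).mono ?_
  intro F hF
  exact ⟨F.subtype (· ∈ S), Finset.subtype_map_of_mem hF⟩

theorem exists_delta (hc : ∀ a : I, (Iio a).Countable) (hu : ¬ (univ : Set I).Countable)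
    {K : Type} [Countable K] (ξ : K → Finset I → I) :
    ∃ δ, (∃ γ, γ < δ) ∧ ∀ k F, (∀ α ∈ F, α < δ) → ξ k F < δ := by
  classical
  have h1 : ∀ γ : I, ∃ b, ∀ k F, (∀ α ∈ F, α ≤ γ) → ξ k F < b := by
    intro γ
    have hS : (⋃ k, ξ k '' {F : Finset I | ∀ α ∈ F, α ∈ Iic γ}).Countable := by
      refine countable_iUnion fun k => (countable_finsets ?_).image _
      have : Iic γ = insert γ (Iio γ) := by
        rw [← Iio_insert]
      rw [this]; exact (hc γ).insert γ
    obtain ⟨b, hb⟩ := exists_bound hc hu hS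
    exact ⟨b, fun k F hF => hb _ (mem_iUnion.2 ⟨k, F, hF, rfl⟩)⟩
  choose G hG using h1
  have hne : (univ : Set I).Nonempty := by
    by_contra h
    rw [not_nonempty_iff_eq_empty] at h
    rw [h] at hu
    exact hu countable_empty
  obtain ⟨a, _⟩ := hne
  obtain ⟨δ, haδ, hδ⟩ := exists_closed hc hu G a
  refine ⟨δ, ⟨a, haδ⟩, fun k F hF => ?_⟩
  have h2 : ∃ γ < δ, ∀ α ∈ F, α ≤ γ := by
    induction F using Finset.induction_on with
    | empty => exact ⟨a, haδ, by simp⟩
    | insert b F hb ih =>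
      obtain ⟨γ, h3, h4⟩ := ih (fun α hα => hF α (Finset.mem_insert_of_mem hα))
      refine ⟨max γ b, max_lt h3 (hF b (Finset.mem_insert_self _ _)), fun α hα => ?_⟩
      rcases Finset.mem_insert.1 hα with h | h
      · rw [h]; exact le_max_right _ _
      · exact (h4 α h).trans (le_max_left _ _)
  obtain ⟨γ, h3, h4⟩ := h2
  exact (hG γ k F h4).trans (hδ γ h3)

omit [LinearOrder I] [WellFoundedLT I] in
/-- A sequence of elements of the dense set with disjoint new levels. -/
theorem exists_seq {f : I → Set (ℕ × ℕ)} (D : Set Pt) (a : Pt) (F : Finset I)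
    (hD : ∀ m, ∃ x ∈ D, x ∈ T f a F m) :
    ∃ (y : ℕ → Pt) (e : ℕ → ℕ), StrictMono e ∧ ∀ j, y j ∈ D ∧ y j ∈ T f a F (e j) ∧
      ∀ p ∈ (y j).1, p.1 < e (j + 1) := by
  choose z hz1 hz2 using hD
  let μ : ℕ → ℕ := fun m => max (m + 1) ((z m).1.sup (fun p => p.1 + 1))
  let e : ℕ → ℕ := fun j => Nat.rec 0 (fun _ m => μ m) j
  have he : ∀ j, e (j + 1) = μ (e j) := fun j => rfl
  refine ⟨fun j => z (e j), e, strictMono_nat_of_lt_succ fun j => ?_,
    fun j => ⟨hz1 _, hz2 _, fun p hp => ?_⟩⟩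
  · rw [he]; exact lt_of_lt_of_le (Nat.lt_succ_self _) (le_max_left _ _)
  · rw [he]
    refine lt_of_lt_of_le (Nat.lt_succ_self _) (le_trans ?_ (le_max_right _ _))
    exact Finset.le_sup (f := fun p : ℕ × ℕ => p.1 + 1) hp

theorem core_B (hc : ∀ a : I, (Iio a).Countable) (hu : ¬ (univ : Set I).Countable)
    (hB : BB I) (u : I → ℕ → ℕ)
    (hL : ∀ t : ℕ → ℕ, ∃ ξ, ∀ α, ξ ≤ α → ∀ᶠ n in atTop, t n ≠ u α n) (R : I → ℕ → Bool) :
    Core (fam (fun _ => univ) u R) := by
  classical
  intro D hD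
  set f := fam (fun _ => univ) u R with hf
  have h1 : ∀ s a F, ∃ (y : ℕ → Pt) (ξ : I), (∀ j, y j ∈ D s ∧ y j ∈ T f a F j) ∧
      ∀ α, ∃ J, ξ ≤ α → ∀ j, J ≤ j → ∀ p ∈ (y j).1, p ∉ a.1 → p ∉ f α := by
    intro s a F
    obtain ⟨y, e, he, hy⟩ := exists_seq (f := f) (D s) a F (hD s a F)
    have ht : ∀ n, ∃ v, ∀ j w, (n, w) ∈ (y j).1 → (n, w) ∉ a.1 → (Nat.unpair w).1 = v := by
      intro n
      by_cases hn : ∃ j w, (n, w) ∈ (y j).1 ∧ (n, w) ∉ a.1
      · obtain ⟨j, w, hw, hwa⟩ := hn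
        refine ⟨(Nat.unpair w).1, fun j' w' hw' hwa' => ?_⟩
        have h2 := ((hy j).2.1.2 _ hw hwa).1
        have h3 := (hy j).2.2 _ hw
        have h4 := ((hy j').2.1.2 _ hw' hwa').1
        have h5 := (hy j').2.2 _ hw'
        simp only at h2 h3 h4 h5
        have h6 : j = j' := by
          rcases lt_trichotomy j j' with h | h | h
          · have := he.monotone (Nat.succ_le_of_lt h)
            simp only [Nat.succ_eq_add_one] at this
            omega
          · exact h
          · have := he.monotone (Nat.succ_le_of_lt h)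
            simp only [Nat.succ_eq_add_one] at this
            omega
        subst h6
        have h7 := (y j).2 _ hw _ hw' rfl
        rw [(Prod.mk.inj h7).2]
      · exact ⟨0, fun j w hw hwa => absurd ⟨j, w, hw, hwa⟩ hn⟩
    choose t ht using ht
    obtain ⟨ξ, hξ⟩ := hL t
    refine ⟨y, ξ, fun j => ⟨(hy j).1, T_mono (Finset.Subset.refl _) he.le_apply (hy j).2.1⟩,
      fun α => ?_⟩
    by_cases hα : ξ ≤ α
    · obtain ⟨N, hN⟩ := eventually_atTop.1 (hξ α hα)
      refine ⟨N, fun _ j hj p hp hpa hpf => ?_⟩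
      have h2 := ((hy j).2.1.2 _ hp hpa).1
      have h3 : N ≤ p.1 := (hj.trans he.le_apply).trans h2
      refine hN p.1 h3 ?_
      rw [← ht p.1 j p.2 hp hpa, hpf.2, Nat.unpair_pair]
    · exact ⟨0, fun h => absurd h hα⟩
  choose y ξ hy hJ using h1
  choose J hJ using hJ
  obtain ⟨δ, hδ0, hδ⟩ := exists_delta hc hu (K := List Pt × Pt) (fun k F => ξ k.1 k.2 F)
  -- the countable set of relevant triples
  have hC : {c : List Pt × Pt × Finset I | ∀ α ∈ c.2.2, α < δ}.Countable := by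
    have h2 : {F : Finset I | ∀ α ∈ F, α ∈ Iio δ}.Countable := countable_finsets (hc δ)
    have h3 : ((univ : Set (List Pt)) ×ˢ ((univ : Set Pt) ×ˢ
        {F : Finset I | ∀ α ∈ F, α ∈ Iio δ})).Countable :=
      (to_countable _).prod ((to_countable _).prod h2)
    refine h3.mono fun c hc' => ?_
    exact mem_prod.2 ⟨mem_univ _, mem_prod.2 ⟨mem_univ _, hc'⟩⟩
  have hCne : {c : List Pt × Pt × Finset I | ∀ α ∈ c.2.2, α < δ}.Nonempty :=
    ⟨([], zero, ∅), by simp⟩
  obtain ⟨dec, hdec⟩ := hC.exists_eq_range hCne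
  have hcod : ∀ c : List Pt × Pt × Finset I, ∃ n, (∀ α ∈ c.2.2, α < δ) → dec n = c := by
    intro c
    by_cases h : ∀ α ∈ c.2.2, α < δ
    · have : c ∈ range dec := hdec ▸ h
      obtain ⟨n, hn⟩ := this
      exact ⟨n, fun _ => hn⟩
    · exact ⟨0, fun h' => absurd h' h⟩
  choose cod hcod using hcod
  obtain ⟨h, hh⟩ := hB (fun α n => J (dec n).1 (dec n).2.1 (dec n).2.2 α)
  let tg : ℕ → Pt × Finset I := fun n => (dec (Nat.unpair n).1).2
  obtain ⟨x, hx⟩ := exists_play (fun n s =>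
    y s (tg n).1 (tg n).2 (h (cod (s, (tg n).1, (tg n).2)) + n))
  refine ⟨x, fun n => by rw [hx]; exact (hy _ _ _ _).1, fun a F' m => ?_⟩
  let F := F'.filter (· < δ)
  have hF : ∀ α ∈ F, α < δ := fun α hα => (Finset.mem_filter.1 hα).2
  obtain ⟨i, hi⟩ : ∃ i, dec i = ([], a, F) := ⟨_, hcod ([], a, F) hF⟩
  have htg : ∀ k, tg (Nat.pair i k) = (a, F) := fun k => by
    simp only [tg, Nat.unpair_pair, hi]
  let ck : ℕ → List Pt × Pt × Finset I := fun k => (previous x (Nat.pair i k), a, F)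
  have hinj : Function.Injective (fun k => cod (ck k)) := by
    intro k k' hkk
    have h2 : ck k = ck k' := by
      rw [← hcod (ck k) hF, ← hcod (ck k') hF]
      simp only at hkk
      rw [hkk]
    have h3 : (previous x (Nat.pair i k)).length = (previous x (Nat.pair i k')).length := by
      rw [(Prod.mk.inj h2).1]
    rw [length_previous, length_previous] at h3
    exact (Nat.pair_eq_pair.1 h3).2
  have h2 : ∀ α ∈ F', ∀ᶠ k in atTop, J (dec (cod (ck k))).1 (dec (cod (ck k))).2.1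
      (dec (cod (ck k))).2.2 α ≤ h (cod (ck k)) := fun α _ =>
    hinj.nat_tendsto_atTop.eventually (hh α)
  have h3 := ((Finset.eventually_all F').2 h2).and (eventually_ge_atTop m)
  obtain ⟨k, hk1, hk2⟩ := h3.exists
  refine ⟨Nat.pair i k, ?_⟩
  rw [hx, htg]
  simp only
  set j := h (cod (previous x (Nat.pair i k), a, F)) + Nat.pair i k with hj
  have hmem := (hy (previous x (Nat.pair i k)) a F j).2
  refine ⟨hmem.1, fun p hp hpa => ⟨?_, fun α hα => ?_⟩⟩
  · have h4 := (hmem.2 p hp hpa).1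
    have h5 := Nat.right_le_pair i k
    omega
  · by_cases hαδ : α < δ
    · exact (hmem.2 p hp hpa).2 α (Finset.mem_filter.2 ⟨hα, hαδ⟩)
    · have h4 := hk1 α hα
      rw [hcod (ck k) hF] at h4
      have h5 : ξ (previous x (Nat.pair i k)) a F ≤ α :=
        (hδ (previous x (Nat.pair i k), a) F hF).le.trans (not_lt.1 hαδ)
      refine hJ _ _ _ α h5 j ?_ p hp hpa
      exact h4.trans (Nat.le_add_right _ _)

end Pool.Agent.Lib_MP_f38362_gt.Regular
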