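import Mathlib
import Pool.Agent.Lib_MP_f38362_gt.Games
import Pool.Agent.Lib_MP_f38362_gt.OpenPoint

/-!
# From positions to strategies: the three games for `MP_f38362_gt`
-/

open Set MP_f38362_gt

namespace Pool.Agent.Lib_MP_f38362_gt.Regular

open Pool.Agent.Lib_MP_f38362_gt.OpenPoint (previous)

variable {X : Type}

/-- The game `G₁(𝒟,𝒟)` on `X`, where `𝒟` is the collection of all families of open sets with dense
union, is undetermined: ONE plays `𝒰 ∈ 𝒟`, TWO picks `U ∈ 𝒰`, and TWO wins if the union of her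
choices is dense. -/
def DenseFamiliesUndetermined (X : Type) [TopologicalSpace X] : Prop :=
  Undetermined (α := Set (Set X)) (β := Set X)
    (fun 𝒰 => (∀ U ∈ 𝒰, IsOpen U) ∧ Dense (⋃₀ 𝒰)) (fun 𝒰 U => U ∈ 𝒰) (fun U => Dense (⋃ n, U n))

/-- The open-point game of Berner and Juhász on `X` is undetermined: the first player plays a
nonempty open set, the second player picks a point of it, and the first player wins if the set of
the points picked is dense. -/
def OpenPointUndetermined (X : Type) [TopologicalSpace X] : Prop :=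
  Undetermined (α := Set X) (β := X) (fun U => IsOpen U ∧ U.Nonempty) (fun U x => x ∈ U)
    (fun x => ¬ Dense (range x))

/-- The game `G₁(𝔇,𝔇)` on `X`, where `𝔇` is the collection of all dense subsets, is undetermined:
ONE plays a dense set, TWO picks a point of it, and TWO wins if the set of her points is dense. -/
def DenseSetsUndetermined (X : Type) [TopologicalSpace X] : Prop :=
  Undetermined (α := Set X) (β := X) (fun D => Dense D) (fun D x => x ∈ D)
    (fun x => Dense (range x))

/-- Against open moves one can play nonempty open subsets with non-dense union. -/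
def Avoid (X : Type) [TopologicalSpace X] : Prop :=
  ∀ O : List (Set X) → Set X, (∀ s, IsOpen (O s) ∧ (O s).Nonempty) →
    ∃ V : ℕ → Set X, (∀ n, IsOpen (V n) ∧ (V n).Nonempty ∧ V n ⊆ O (previous V n)) ∧
      ¬ Dense (⋃ n, V n)

/-- Against dense moves one can play a dense sequence of points. -/
def Meet (X : Type) [TopologicalSpace X] : Prop :=
  ∀ R : List X → Set X, (∀ s, Dense (R s)) →
    ∃ x : ℕ → X, (∀ n, x n ∈ R (previous x n)) ∧ Dense (range x)

/-- histories from lists of moves of the second player, the first player's moves being given by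
`f` -/
def build {α β : Type} (f : β → List (α × β) → α) : List β → List (α × β)
  | [] => []
  | x :: s => (f x (build f s), x) :: build f s

theorem innings_build {α β : Type} (f : β → List (α × β) → α) (x : ℕ → β) (n : ℕ) :
    innings (fun n => f (x n) (build f (previous x n))) x n = build f (previous x n) := by
  induction n with
  | zero => rfl
  | succ n ih =>
    simp only [innings, ih]
    rfl

theorem avoid_points [TopologicalSpace X] (h1 : Avoid X) (O : List X → Set X)
    (hO : ∀ s, IsOpen (O s) ∧ (O s).Nonempty) :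
    ∃ x : ℕ → X, (∀ n, x n ∈ O (previous x n)) ∧ ¬ Dense (range x) := by
  classical
  have hpt : ∀ V : Set X, ∃ x, V.Nonempty → x ∈ V := by
    intro V
    by_cases hV : V.Nonempty
    · obtain ⟨x, hx⟩ := hV
      exact ⟨x, fun _ => hx⟩
    · obtain ⟨x, _⟩ := (hO []).2
      exact ⟨x, fun h => absurd h hV⟩
  choose pt hpt using hpt
  obtain ⟨V, hV, hd⟩ := h1 (fun S => O (S.map pt)) (fun S => hO _)
  have hprev : ∀ n, previous (fun n => pt (V n)) n = (previous V n).map pt := by
    intro n
    induction n with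
    | zero => rfl
    | succ n ih => rw [previous, ih]; rfl
  refine ⟨fun n => pt (V n), fun n => ?_, fun hd' => hd (hd'.mono ?_)⟩
  · rw [hprev]
    exact (hV n).2.2 (hpt _ (hV n).2.1)
  · rintro _ ⟨n, rfl⟩
    exact mem_iUnion.2 ⟨n, hpt _ (hV n).2.1⟩

theorem openPoint_of [TopologicalSpace X] (h1 : Avoid X) (h2 : Meet X) :
    OpenPointUndetermined X := by
  classical
  constructor
  · rintro ⟨σ, hσ, hw⟩
    let f : X → List (Set X × X) → Set X := fun _ h => σ h
    obtain ⟨x, hx1, hx2⟩ := avoid_points h1 (fun s => σ (build f s)) (fun s => hσ _)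
    refine hw (fun n => f (x n) (build f (previous x n))) x (fun n => ?_) (fun n => hx1 n) hx2
    rw [innings_build]
  · rintro ⟨τ, hτ, hw⟩
    have key : ∀ (x : X) (h : List (Set X × X)), ∃ U : Set X, (IsOpen U ∧ U.Nonempty) ∧
        ((∃ V, (IsOpen V ∧ V.Nonempty) ∧ τ h V = x) → τ h U = x) := by
      intro x h
      by_cases hV : ∃ V, (IsOpen V ∧ V.Nonempty) ∧ τ h V = x
      · obtain ⟨V, h3, h4⟩ := hV
        exact ⟨V, h3, fun _ => h4⟩
      · exact ⟨Set.univ, ⟨isOpen_univ, ⟨x, trivial⟩⟩, fun h' => absurd h' hV⟩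
    choose f hf1 hf2 using key
    obtain ⟨x, hx1, hx2⟩ := h2 (fun s => {x | ∃ V, (IsOpen V ∧ V.Nonempty) ∧ τ (build f s) V = x})
      (fun s => by
        rw [dense_iff_inter_open]
        intro V hV hne
        exact ⟨τ (build f s) V, hτ _ V ⟨hV, hne⟩, V, ⟨hV, hne⟩, rfl⟩)
    refine hw (fun n => f (x n) (build f (previous x n))) x (fun n => hf1 _ _) (fun n => ?_) hx2
    rw [innings_build]
    exact (hf2 _ _ (hx1 n)).symm

theorem denseSets_of [TopologicalSpace X] (h1 : Avoid X) (h2 : Meet X) :
    DenseSetsUndetermined X := by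
  classical
  constructor
  · rintro ⟨σ, hσ, hw⟩
    let f : X → List (Set X × X) → Set X := fun _ h => σ h
    obtain ⟨x, hx1, hx2⟩ := h2 (fun s => σ (build f s)) (fun s => hσ _)
    refine hw (fun n => f (x n) (build f (previous x n))) x (fun n => ?_) (fun n => hx1 n) hx2
    rw [innings_build]
  · rintro ⟨τ, hτ, hw⟩
    -- a point is a possible answer at the history `h`
    let P : List (Set X × X) → X → Prop := fun h x => ∃ D, Dense D ∧ τ h D = x
    have key : ∀ (x : X) (h : List (Set X × X)), ∃ D : Set X, Dense D ∧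
        (P h x → τ h D = x) := by
      intro x h
      by_cases hV : P h x
      · obtain ⟨V, h3, h4⟩ := hV
        exact ⟨V, h3, fun _ => h4⟩
      · exact ⟨Set.univ, dense_univ, fun h' => absurd h' hV⟩
    choose f hf1 hf2 using key
    have hO : ∀ h : List (Set X × X), ∃ U : Set X, (IsOpen U ∧ U.Nonempty) ∧ ∀ x ∈ U, P h x := by
      intro h
      by_contra hcon
      push Not at hcon
      have hD : Dense {x | ¬ P h x} := by
        rw [dense_iff_inter_open]
        intro U hU hne
        obtain ⟨x, hx, hxP⟩ := hcon U ⟨hU, hne⟩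
        exact ⟨x, hx, hxP⟩
      exact hτ h _ hD ⟨_, hD, rfl⟩
    choose O hO1 hO2 using hO
    obtain ⟨x, hx1, hx2⟩ := avoid_points h1 (fun s => O (build f s)) (fun s => hO1 _)
    refine hx2 (hw (fun n => f (x n) (build f (previous x n))) x (fun n => hf1 _ _) (fun n => ?_))
    rw [innings_build]
    exact (hf2 _ _ (hO2 _ _ (hx1 n))).symm

theorem denseFamilies_of [TopologicalSpace X] (h1 : Avoid X) (h2 : Meet X) :
    DenseFamiliesUndetermined X := by
  classical
  constructor
  · rintro ⟨σ, hσ, hw⟩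
    -- a member of ONE's move containing a given point
    have key : ∀ (h : List (Set (Set X) × Set X)) (x : X), ∃ U : Set X,
        x ∈ ⋃₀ (σ h) → U ∈ σ h ∧ x ∈ U := by
      intro h x
      by_cases hx : x ∈ ⋃₀ (σ h)
      · obtain ⟨U, hU, hxU⟩ := hx
        exact ⟨U, fun _ => ⟨hU, hxU⟩⟩
      · exact ⟨∅, fun h' => absurd h' hx⟩
    choose c hc using key
    let H : List X → List (Set (Set X) × Set X) :=
      fun l => l.foldr (fun x h => (σ h, c h x) :: h) []
    have hH : ∀ x l, H (x :: l) = (σ (H l), c (H l) x) :: H l := fun x l => rfl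
    obtain ⟨x, hx1, hx2⟩ := h2 (fun s => ⋃₀ (σ (H s))) (fun s => (hσ _).2)
    have hi : ∀ n, innings (fun n => σ (H (previous x n))) (fun n => c (H (previous x n)) (x n)) n
        = H (previous x n) := by
      intro n
      induction n with
      | zero => rfl
      | succ n ih => rw [innings, ih, previous, hH]
    refine hw (fun n => σ (H (previous x n))) (fun n => c (H (previous x n)) (x n))
      (fun n => by rw [hi]) (fun n => (hc _ _ (hx1 n)).1) (hx2.mono ?_)
    rintro _ ⟨n, rfl⟩
    exact mem_iUnion.2 ⟨n, (hc _ _ (hx1 n)).2⟩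
  · rintro ⟨τ, hτ, hw⟩
    -- a set is a possible answer at the history `h`
    let P : List (Set (Set X) × Set X) → Set X → Prop := fun h V =>
      ∃ 𝒰 : Set (Set X), ((∀ U ∈ 𝒰, IsOpen U) ∧ Dense (⋃₀ 𝒰)) ∧ τ h 𝒰 = V
    have key : ∀ (V : Set X) (h : List (Set (Set X) × Set X)), ∃ 𝒰 : Set (Set X),
        ((∀ U ∈ 𝒰, IsOpen U) ∧ Dense (⋃₀ 𝒰)) ∧ (P h V → τ h 𝒰 = V) := by
      intro V h
      by_cases hV : P h V
      · obtain ⟨𝒰, h3, h4⟩ := hV
        exact ⟨𝒰, h3, fun _ => h4⟩
      · refine ⟨{univ}, ⟨fun U hU => ?_, ?_⟩, fun h' => absurd h' hV⟩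
        · rw [mem_singleton_iff.1 hU]; exact isOpen_univ
        · rw [sUnion_singleton]; exact dense_univ
    choose f hf1 hf2 using key
    have hO : ∀ h : List (Set (Set X) × Set X), ∃ U : Set X, (IsOpen U ∧ U.Nonempty) ∧
        ∀ V ⊆ U, IsOpen V → V.Nonempty → P h V := by
      intro h
      by_contra hcon
      push Not at hcon
      let 𝒰 : Set (Set X) := {V | IsOpen V ∧ ¬ P h V}
      have hD : (∀ U ∈ 𝒰, IsOpen U) ∧ Dense (⋃₀ 𝒰) := by
        refine ⟨fun U hU => hU.1, ?_⟩
        rw [dense_iff_inter_open]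
        intro U hU hne
        obtain ⟨V, hVU, hV, ⟨x, hx⟩, hVP⟩ := hcon U ⟨hU, hne⟩
        exact ⟨x, hVU hx, V, ⟨hV, hVP⟩, hx⟩
      exact (hτ h _ hD).2 ⟨_, hD, rfl⟩
    choose O hO1 hO2 using hO
    obtain ⟨V, hV1, hV2⟩ := h1 (fun s => O (build f s)) (fun s => hO1 _)
    refine hV2 (hw (fun n => f (V n) (build f (previous V n))) V (fun n => hf1 _ _) (fun n => ?_))
    rw [innings_build]
    exact (hf2 _ _ (hO2 _ _ (hV1 n).2.2 (hV1 n).1 (hV1 n).2.1)).symm

end Pool.Agent.Lib_MP_f38362_gt.Regular
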