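import Mathlib
import Pool.Agent.Lib_MP_f38362_gt.RegularCore

/-!
# The third case and the family
-/

open Set Filter

namespace Pool.Agent.Lib_MP_f38362_gt.Regular

open Pool.Agent.Lib_MP_f38362_gt.OpenPoint (previous exists_bound exists_closed)

variable {I : Type} [LinearOrder I] [WellFoundedLT I]

/-! ### A family of Luzin type from a family which cannot be guessed -/

omit [WellFoundedLT I] in
theorem exists_luzin (hc : ∀ a : I, (Iio a).Countable) (hP : ¬ PP I) :
    ∃ u : I → ℕ → ℕ, ∀ t : ℕ → ℕ, ∃ ξ, ∀ α, ξ ≤ α → ∀ᶠ n in atTop, t n ≠ u α n := by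
  classical
  unfold PP at hP
  push Not at hP
  obtain ⟨g, hg⟩ := hP
  have he : ∀ α : I, ∃ e : ℕ → I, Iic α = range e := by
    intro α
    refine Set.Countable.exists_eq_range ?_ ⟨α, le_refl α⟩
    rw [← Iio_insert]
    exact (hc α).insert α
  choose e he using he
  refine ⟨fun α n => Encodable.encode ((List.range (n + 1)).map
    (fun k => g (e α k) (Nat.pair n k))), fun t => ?_⟩
  by_contra hcon
  push Not at hcon
  obtain ⟨β, hβ⟩ := hg (fun m => List.getD
    ((Encodable.decode (t (Nat.unpair m).1) : Option (List ℕ)).getD []) (Nat.unpair m).2 0)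
  obtain ⟨α, hβα, hα⟩ := hcon β
  have h1 : β ∈ range (e α) := by rw [← he α]; exact hβα
  obtain ⟨k, hk⟩ := h1
  obtain ⟨M, hM⟩ := eventually_atTop.1 hβ
  obtain ⟨n, hn1, hn2⟩ := (hα.and_eventually (eventually_ge_atTop (max k M))).exists
  have hkn : k < n + 1 := Nat.lt_succ_of_le ((le_max_left _ _).trans hn2)
  refine hM (Nat.pair n k) (((le_max_right _ _).trans hn2).trans (Nat.left_le_pair n k)) ?_
  simp only [Nat.unpair_pair]
  rw [hn1, Encodable.encodek, Option.getD_some, List.getD_eq_getElem _ _ (by simpa using hkn)]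
  simp [hk]

/-! ### An unbounded chain -/

theorem exists_chain (hc : ∀ a : I, (Iio a).Countable) (b : I → ℕ → ℕ) :
    ∃ f : I → ℕ → ℕ, (∀ α, Monotone (f α)) ∧ (∀ α n, n < f α n) ∧ (∀ α n, b α n ≤ f α n) ∧
      ∀ β α, β < α → ∀ᶠ n in atTop, f β n ≤ f α n := by
  classical
  have he : ∀ α : I, ∃ e : ℕ → I, Iio α ⊆ range e := fun α => by
    have : Nonempty I := ⟨α⟩
    exact Set.countable_iff_exists_subset_range.1 (hc α)
  choose e he using he
  let Φ : ∀ α : I, (∀ β : I, β < α → ℕ → ℕ) → ℕ → ℕ := fun α p n =>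
    ∑ i ∈ Finset.range (n + 1), (1 + b α i +
      ∑ k ∈ Finset.range (i + 1), if h : e α k < α then p (e α k) h i else 0)
  let f : I → ℕ → ℕ := (wellFounded_lt (α := I)).fix Φ
  have hf : ∀ α n, f α n = ∑ i ∈ Finset.range (n + 1), (1 + b α i +
      ∑ k ∈ Finset.range (i + 1), if e α k < α then f (e α k) i else 0) := by
    intro α n
    have h1 : f α = Φ α (fun β _ => f β) := WellFounded.fix_eq _ _ _
    rw [h1]
    simp only [Φ, dite_eq_ite]
  have hterm : ∀ α n, 1 + b α n + (∑ k ∈ Finset.range (n + 1),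
      if e α k < α then f (e α k) n else 0) ≤ f α n := by
    intro α n
    rw [hf]
    exact Finset.single_le_sum (f := fun i => 1 + b α i +
      ∑ k ∈ Finset.range (i + 1), if e α k < α then f (e α k) i else 0)
      (fun _ _ => Nat.zero_le _) (Finset.mem_range.2 (Nat.lt_succ_self n))
  refine ⟨f, fun α n n' hn => ?_, fun α n => ?_, fun α n => ?_, fun β α hβ => ?_⟩
  · rw [hf, hf]
    exact Finset.sum_le_sum_of_subset (Finset.range_subset_range.2 (Nat.succ_le_succ hn))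
  · rw [hf]
    have h1 : ∑ i ∈ Finset.range (n + 1), 1 ≤ ∑ i ∈ Finset.range (n + 1), (1 + b α i +
        ∑ k ∈ Finset.range (i + 1), if e α k < α then f (e α k) i else 0) :=
      Finset.sum_le_sum fun i _ => by omega
    simp only [Finset.sum_const, Finset.card_range, smul_eq_mul, mul_one] at h1
    omega
  · have := hterm α n
    omega
  · obtain ⟨k, hk⟩ := he α hβ
    filter_upwards [eventually_ge_atTop k] with n hn
    refine le_trans ?_ (hterm α n)
    refine le_trans ?_ (Nat.le_add_left _ _)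
    have h1 := Finset.single_le_sum (f := fun k => if e α k < α then f (e α k) n else 0)
      (s := Finset.range (n + 1)) (fun _ _ => Nat.zero_le _)
      (Finset.mem_range.2 (Nat.lt_succ_of_le hn))
    simp only [hk] at h1
    rw [if_pos hβ] at h1
    exact h1

theorem exists_unbounded_chain (hc : ∀ a : I, (Iio a).Countable) (hB : ¬ BB I) :
    ∃ f : I → ℕ → ℕ, (∀ α, Monotone (f α)) ∧ (∀ α n, n < f α n) ∧
      (∀ β α, β ≤ α → ∀ᶠ n in atTop, f β n ≤ f α n) ∧
      ∀ g : ℕ → ℕ, ∃ ξ, ∀ α, ξ ≤ α → ∃ᶠ n in atTop, g n < f α n := by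
  unfold BB at hB
  push Not at hB
  obtain ⟨b, hb⟩ := hB
  obtain ⟨f, h1, h2, h3, h4⟩ := exists_chain hc b
  have h5 : ∀ β α, β ≤ α → ∀ᶠ n in atTop, f β n ≤ f α n := by
    intro β α h
    rcases h.lt_or_eq with h | h
    · exact h4 β α h
    · exact Eventually.of_forall fun n => by rw [h]
  refine ⟨f, h1, h2, h5, fun g => ?_⟩
  obtain ⟨ξ, hξ⟩ := hb g
  refine ⟨ξ, fun α hα => (hξ.and_eventually (h5 ξ α hα)).mono fun n hn => ?_⟩
  exact hn.1.trans_le ((h3 ξ n).trans hn.2)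

/-! ### Legal positions -/

/-- the positions which are legal for dense moves -/
def Legal (D : List Pt → Set Pt) : List Pt → Prop
  | [] => True
  | x :: s => x ∈ D s ∧ Legal D s

theorem Legal.suffix {D : List Pt → Set Pt} {s t : List Pt} (h : s <:+ t) (ht : Legal D t) :
    Legal D s := by
  obtain ⟨u, rfl⟩ := h
  induction u with
  | nil => exact ht
  | cons x u ih => exact ih ht.2

theorem exists_limit {D : List Pt → Set Pt} {s : ℕ → List Pt} (h0 : ∀ i, Legal D (s i))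
    (h1 : ∀ i, s i <:+ s (i + 1)) (h2 : ∀ i, (s i).length < (s (i + 1)).length) :
    ∃ x : ℕ → Pt, (∀ n, x n ∈ D (previous x n)) ∧ ∀ i, ∀ y ∈ s i, ∃ n, x n = y := by
  classical
  have hchain : ∀ i j, i ≤ j → s i <:+ s j := by
    intro i j hij
    induction j, hij using Nat.le_induction with
    | base => exact List.suffix_refl _
    | succ j _ ih => exact ih.trans (h1 j)
  have hlen : ∀ i, i ≤ (s i).length := by
    intro i
    induction i with
    | zero => exact Nat.zero_le _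
    | succ i ih => exact Nat.succ_le_of_lt (ih.trans_lt (h2 i))
  have hp : ∀ l : List Pt, ∃ x : Pt, (∃ y i, (y :: l) <:+ s i) → ∃ i, (x :: l) <:+ s i := by
    intro l
    by_cases h : ∃ y i, (y :: l) <:+ s i
    · obtain ⟨y, i, h3⟩ := h
      exact ⟨y, fun _ => ⟨i, h3⟩⟩
    · exact ⟨zero, fun h' => absurd h' h⟩
  choose pick hpick using hp
  obtain ⟨x, hx⟩ := exists_play (fun _ l => pick l)
  have hcl : ∀ l i, l <:+ s i → ∃ j, (pick l :: l) <:+ s j := by
    intro l i hl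
    apply hpick
    have h3 : l <:+ s (max i (l.length + 1)) := hl.trans (hchain _ _ (le_max_left _ _))
    have h4 := (le_max_right i (l.length + 1)).trans (hlen (max i (l.length + 1)))
    obtain ⟨u, hu⟩ := h3
    rcases List.eq_nil_or_concat u with h | ⟨u', y, h⟩
    · rw [h, List.nil_append] at hu
      rw [← hu] at h4
      omega
    · refine ⟨y, max i (l.length + 1), u', ?_⟩
      rw [← hu, h]
      simp
  have hsuf : ∀ n, ∃ i, previous x n <:+ s i := by
    intro n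
    induction n with
    | zero => exact ⟨0, List.nil_suffix⟩
    | succ n ih =>
      obtain ⟨i, hi⟩ := ih
      rw [previous, hx n]
      exact hcl _ i hi
  refine ⟨x, fun n => ?_, fun i y hy => ?_⟩
  · obtain ⟨i, hi⟩ := hsuf (n + 1)
    exact (Legal.suffix hi (h0 i)).1
  · obtain ⟨u, v, huv⟩ := List.append_of_mem hy
    obtain ⟨j, hj⟩ := hsuf (v.length + 1)
    have h3 : (y :: v) <:+ s (max i j) :=
      List.IsSuffix.trans ⟨u, huv.symm⟩ (hchain i _ (le_max_left _ _))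
    have h4 : previous x (v.length + 1) <:+ s (max i j) := hj.trans (hchain _ _ (le_max_right _ _))
    have h5 : (y :: v).length = (previous x (v.length + 1)).length := by
      rw [length_previous, List.length_cons]
    have h6 : (y :: v) = previous x (v.length + 1) :=
      (List.suffix_of_suffix_length_le h3 h4 h5.le).eq_of_length h5
    rw [previous] at h6
    exact ⟨v.length, (List.cons.inj h6).1.symm⟩

omit [LinearOrder I] [WellFoundedLT I] in
theorem exists_block {f : I → Set (ℕ × ℕ)} {D : List Pt → Set Pt}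
    (hD : ∀ s a F m, ∃ x ∈ D s, x ∈ T f a F m) (c : ℕ → Pt × Finset I) (m : ℕ) (s : List Pt)
    (k : ℕ) : ∃ t, s <:+ t ∧ (Legal D s → Legal D t) ∧
      ∀ j < k, ∃ x ∈ t, x ∈ T f (c j).1 (c j).2 m := by
  induction k with
  | zero => exact ⟨s, List.suffix_refl _, id, fun j hj => absurd hj (Nat.not_lt_zero j)⟩
  | succ k ih =>
    obtain ⟨t, h1, h2, h3⟩ := ih
    obtain ⟨x, hx1, hx2⟩ := hD t (c k).1 (c k).2 m
    refine ⟨x :: t, h1.trans (List.suffix_cons x t), fun h => ⟨hx1, h2 h⟩, fun j hj => ?_⟩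
    rcases Nat.lt_succ_iff_lt_or_eq.1 hj with h | h
    · obtain ⟨y, hy1, hy2⟩ := h3 j h
      exact ⟨y, List.mem_cons_of_mem _ hy1, hy2⟩
    · rw [h]
      exact ⟨x, List.mem_cons_self, hx2⟩

theorem exists_level_bound (t : List Pt) : ∃ b, ∀ x ∈ t, ∀ p ∈ x.1, p.1 < b := by
  induction t with
  | nil => exact ⟨0, by simp⟩
  | cons y t ih =>
    obtain ⟨b, hb⟩ := ih
    refine ⟨max b (y.1.sup (fun p => p.1 + 1)), fun x hx p hp => ?_⟩
    rcases List.mem_cons.1 hx with h | h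
    · rw [h] at hp
      refine lt_of_lt_of_le (Nat.lt_succ_self _) (le_trans ?_ (le_max_right _ _))
      exact Finset.le_sup (f := fun p : ℕ × ℕ => p.1 + 1) hp
    · exact (hb x h p hp).trans_le (le_max_left _ _)

omit [LinearOrder I] [WellFoundedLT I] in
theorem exists_macro {f : I → Set (ℕ × ℕ)} {D : List Pt → Set Pt}
    (hD : ∀ s a F m, ∃ x ∈ D s, x ∈ T f a F m) {cd : List Pt → ℕ} (hcd : Function.Injective cd)
    (c : ℕ → Pt × Finset I) (m : ℕ) : ∃ K, m ≤ K ∧ ∀ s, cd s ≤ m →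
      ∃ t, s <:+ t ∧ (Legal D s → Legal D t) ∧ cd t ≤ K ∧
        ∀ j ≤ m, ∃ x ∈ t, x ∈ T f (c j).1 (c j).2 m ∧ ∀ p ∈ x.1, p.1 < K := by
  classical
  choose t ht1 ht2 ht3 using fun s => exists_block hD c m s (m + 1)
  choose b hb using exists_level_bound
  have hfin : {s | cd s ≤ m}.Finite := (Set.finite_Iic m).preimage hcd.injOn
  let B : Finset (List Pt) := hfin.toFinset
  have hB : ∀ s, s ∈ B ↔ cd s ≤ m := fun s => by simp [B]
  refine ⟨max m (B.sup (fun s => max (cd (t s)) (b (t s)))), le_max_left _ _, fun s hs => ?_⟩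
  have h1 := Finset.le_sup (f := fun s => max (cd (t s)) (b (t s))) ((hB s).2 hs)
  refine ⟨t s, ht1 s, ht2 s, ((le_max_left _ _).trans h1).trans (le_max_right _ _),
    fun j hj => ?_⟩
  obtain ⟨x, hx1, hx2⟩ := ht3 s j (Nat.lt_succ_of_le hj)
  exact ⟨x, hx1, hx2, fun p hp => (hb _ x hx1 p hp).trans_le
    (((le_max_right _ _).trans h1).trans (le_max_right _ _))⟩

omit [LinearOrder I] [WellFoundedLT I] in
theorem exists_phase {f : I → Set (ℕ × ℕ)} {D : List Pt → Set Pt}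
    (hD : ∀ s a F m, ∃ x ∈ D s, x ∈ T f a F m) {cd : List Pt → ℕ} (hcd : Function.Injective cd)
    (c : ℕ → Pt × Finset I) (L m : ℕ) : ∃ K, m ≤ K ∧ ∀ s, cd s ≤ m →
      ∃ t, s <:+ t ∧ (Legal D s → Legal D t) ∧ cd t ≤ K ∧
        ∀ R : Finset ℕ, R.card ≤ L → ∀ j ≤ m, ∃ x ∈ t, x ∈ T f (c j).1 (c j).2 m ∧
          ∀ p ∈ x.1, p ∉ (c j).1.1 → p.1 < K ∧ p.1 ∉ R := by
  classical
  induction L with
  | zero =>
    obtain ⟨K, hK, h⟩ := exists_macro hD hcd c m
    refine ⟨K, hK, fun s hs => ?_⟩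
    obtain ⟨t, h1, h2, h3, h4⟩ := h s hs
    refine ⟨t, h1, h2, h3, fun R hR j hj => ?_⟩
    obtain ⟨x, hx1, hx2, hx3⟩ := h4 j hj
    have hR' : R = ∅ := Finset.card_eq_zero.1 (Nat.le_zero.1 hR)
    exact ⟨x, hx1, hx2, fun p hp _ => ⟨hx3 p hp, by simp [hR']⟩⟩
  | succ L ih =>
    obtain ⟨K, hK, h⟩ := ih
    obtain ⟨K', hK', h'⟩ := exists_macro hD hcd c K
    refine ⟨K', hK.trans hK', fun s hs => ?_⟩
    obtain ⟨t, h1, h2, h3, h4⟩ := h s hs
    obtain ⟨t', h1', h2', h3', h4'⟩ := h' t h3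
    refine ⟨t', h1.trans h1', fun hs => h2' (h2 hs), h3', fun R hR j hj => ?_⟩
    by_cases hRK : ∀ r ∈ R, r < K
    · obtain ⟨x, hx1, hx2, hx3⟩ := h4' j (hj.trans hK)
      refine ⟨x, hx1, T_mono (Finset.Subset.refl _) hK hx2, fun p hp hpa => ⟨hx3 p hp, fun hpR => ?_⟩⟩
      have h5 := (hx2.2 p hp hpa).1
      have h6 := hRK _ hpR
      omega
    · push Not at hRK
      obtain ⟨r, hr, hrK⟩ := hRK
      obtain ⟨x, hx1, hx2, hx3⟩ := h4 (R.erase r) (by
        rw [Finset.card_erase_of_mem hr]; omega) j hj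
      refine ⟨x, h1'.subset hx1, hx2, fun p hp hpa => ?_⟩
      obtain ⟨h5, h6⟩ := hx3 p hp hpa
      refine ⟨h5.trans_le hK', fun hpR => h6 (Finset.mem_erase.2 ⟨?_, hpR⟩)⟩
      omega

omit [WellFoundedLT I] in
theorem exists_le_of_finset {δ : I} (hδ : ∃ γ, γ < δ) (F : Finset I) (hF : ∀ α ∈ F, α < δ) :
    ∃ γ < δ, ∀ α ∈ F, α ≤ γ := by
  classical
  obtain ⟨a, haδ⟩ := hδ
  induction F using Finset.induction_on with
  | empty => exact ⟨a, haδ, by simp⟩
  | insert b F hb ih =>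
    obtain ⟨γ, h3, h4⟩ := ih (fun α hα => hF α (Finset.mem_insert_of_mem hα))
    refine ⟨max γ b, max_lt h3 (hF b (Finset.mem_insert_self _ _)), fun α hα => ?_⟩
    rcases Finset.mem_insert.1 hα with h | h
    · rw [h]; exact le_max_right _ _
    · exact (h4 α h).trans (le_max_left _ _)

/-- the orbit of `0` -/
def orb (f : ℕ → ℕ) : Set ℕ := range (fun k => f^[k] 0)

theorem orb_strictMono {f : ℕ → ℕ} (h : ∀ n, n < f n) : StrictMono (fun k => f^[k] 0) :=
  strictMono_nat_of_lt_succ fun k => by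
    rw [Function.iterate_succ_apply']; exact h _

theorem orb_infinite {f : ℕ → ℕ} (h : ∀ n, n < f n) : (orb f).Infinite :=
  Set.infinite_range_of_injective (orb_strictMono h).injective

theorem orb_gap {f : ℕ → ℕ} (h : ∀ n, n < f n) (hm : Monotone f) {m x y : ℕ} (hx : x ∈ orb f)
    (hy : y ∈ orb f) (hmx : m ≤ x) (hxy : x < y) : f m ≤ y := by
  obtain ⟨i, rfl⟩ := hx
  obtain ⟨j, rfl⟩ := hy
  have hij : i < j := (orb_strictMono h).lt_iff_lt.1 hxy
  have h1 := (orb_strictMono h).monotone (Nat.succ_le_of_lt hij)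
  simp only [Nat.succ_eq_add_one, Function.iterate_succ_apply'] at h1
  exact (hm hmx).trans h1

theorem core_C (hc : ∀ a : I, (Iio a).Countable) (hu : ¬ (univ : Set I).Countable)
    {φ : I → ℕ → ℕ} (h1 : ∀ α, Monotone (φ α)) (h2 : ∀ α n, n < φ α n)
    (h3 : ∀ β α, β ≤ α → ∀ᶠ n in atTop, φ β n ≤ φ α n)
    (h4 : ∀ g : ℕ → ℕ, ∃ ξ, ∀ α, ξ ≤ α → ∃ᶠ n in atTop, g n < φ α n)
    (u : I → ℕ → ℕ) (R : I → ℕ → Bool) :
    Core (fam (fun α => orb (φ α)) u R) := by
  classical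
  intro D hD
  set f := fam (fun α => orb (φ α)) u R with hf
  obtain ⟨cd, hcd⟩ := exists_injective_nat (List Pt)
  -- targets
  have hc' : ∀ η : I, ∃ c : ℕ → Pt × Finset I, ∀ a F, (∀ α ∈ F, α ≤ η) → (a, F) ∈ range c := by
    intro η
    have hS : {c : Pt × Finset I | ∀ α ∈ c.2, α ≤ η}.Countable := by
      have h5 : {F : Finset I | ∀ α ∈ F, α ∈ Iic η}.Countable := by
        apply countable_finsets
        rw [← Iio_insert]
        exact (hc η).insert η
      have h6 : ((univ : Set Pt) ×ˢ {F : Finset I | ∀ α ∈ F, α ∈ Iic η}).Countable :=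
        (to_countable _).prod h5
      exact h6.mono fun c hc => mem_prod.2 ⟨mem_univ _, hc⟩
    obtain ⟨c, hc⟩ := hS.exists_eq_range ⟨(zero, ∅), by simp⟩
    refine ⟨c, fun a F hF => ?_⟩
    rw [← hc]; exact hF
  choose c hcr using hc'
  -- the phase functions
  choose G hG1 hG2 using fun (η : I) (m : ℕ) => exists_phase hD hcd (c η) m m
  choose ξ hξ using fun η => h4 (G η)
  have hne : (univ : Set I).Nonempty := by
    by_contra h
    rw [not_nonempty_iff_eq_empty] at h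
    rw [h] at hu
    exact hu countable_empty
  obtain ⟨a0, _⟩ := hne
  obtain ⟨δ, haδ, hδ⟩ := exists_closed hc hu ξ a0
  have hδ' : ∀ η < δ, ∃ᶠ m in atTop, G η m < φ δ m := fun η hη => hξ η δ (hδ η hη).le
  obtain ⟨e, he⟩ := (hc δ).exists_eq_range ⟨a0, haδ⟩
  have heδ : ∀ i, e i < δ := fun i => by
    have : e i ∈ Iio δ := he ▸ mem_range_self i
    exact this
  -- one step
  have hstep : ∀ (i : ℕ) (s : List Pt), ∃ t : List Pt, s <:+ t ∧ s.length < t.length ∧
      (Legal D s → Legal D t) ∧ ∃ m, i ≤ m ∧ G (e (Nat.unpair i).1) m < φ δ m ∧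
      ∀ R : Finset ℕ, R.card ≤ m → ∀ j ≤ m, ∃ x ∈ t,
        x ∈ T f (c (e (Nat.unpair i).1) j).1 (c (e (Nat.unpair i).1) j).2 m ∧
          ∀ p ∈ x.1, p ∉ (c (e (Nat.unpair i).1) j).1.1 →
            p.1 < G (e (Nat.unpair i).1) m ∧ p.1 ∉ R := by
    intro i s
    obtain ⟨m, hm1, hm2⟩ := ((hδ' _ (heδ (Nat.unpair i).1)).and_eventually
      (eventually_ge_atTop (max i (cd s)))).exists
    obtain ⟨t, ht1, ht2, ht3, ht4⟩ := hG2 (e (Nat.unpair i).1) m s ((le_max_right _ _).trans hm2)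
    obtain ⟨y, hy, _⟩ := hD t zero ∅ 0
    refine ⟨y :: t, ht1.trans (List.suffix_cons y t), ?_, fun hs => ⟨hy, ht2 hs⟩, m,
      (le_max_left _ _).trans hm2, hm1, fun R hR j hj => ?_⟩
    · rw [List.length_cons]
      exact Nat.lt_succ_of_le ht1.length_le
    · obtain ⟨x, hx1, hx2⟩ := ht4 R hR j hj
      exact ⟨x, List.mem_cons_of_mem _ hx1, hx2⟩
  choose nx hnx1 hnx2 hnx3 hnx4 using hstep
  let s : ℕ → List Pt := fun n => Nat.rec [] (fun i l => nx i l) n
  have hs : ∀ i, s (i + 1) = nx i (s i) := fun i => rfl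
  have hleg : ∀ i, Legal D (s i) := by
    intro i
    induction i with
    | zero => exact trivial
    | succ i ih => rw [hs]; exact hnx3 _ _ ih
  obtain ⟨x, hx1, hx2⟩ := exists_limit hleg (fun i => by rw [hs]; exact hnx1 _ _)
    (fun i => by rw [hs]; exact hnx2 _ _)
  refine ⟨x, hx1, fun a F' m0 => ?_⟩
  let F := F'.filter (· < δ)
  let F1 := F'.filter (fun α => ¬ α < δ)
  obtain ⟨η, hηδ, hη⟩ := exists_le_of_finset ⟨a0, haδ⟩ F
    (fun α hα => (Finset.mem_filter.1 hα).2)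
  obtain ⟨i0, hi0⟩ : η ∈ range e := he ▸ hηδ
  obtain ⟨j, hj⟩ := hcr η a F hη
  have h5 : ∀ᶠ m in atTop, ∀ α ∈ F1, φ δ m ≤ φ α m :=
    (Finset.eventually_all F1).2 fun α hα => h3 δ α (not_lt.1 (Finset.mem_filter.1 hα).2)
  obtain ⟨M, hM⟩ := eventually_atTop.1 h5
  set k := M + m0 + j + F1.card with hk
  obtain ⟨m, hm1, hm2, hm3⟩ := hnx4 (Nat.pair i0 k) (s (Nat.pair i0 k))
  have hkm : k ≤ m := (Nat.right_le_pair i0 k).trans hm1
  simp only [Nat.unpair_pair, hi0] at hm2 hm3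
  -- the bad levels
  let Rb : Finset ℕ := F1.biUnion fun α => (Finset.Ico m (G η m)).filter (· ∈ orb (φ α))
  have hRb : Rb.card ≤ m := by
    have h6 : Rb.card ≤ F1.card * 1 := by
      refine Finset.card_biUnion_le_card_mul _ _ _ fun α hα => ?_
      rw [Finset.card_le_one]
      intro y hy z hz
      have hy1 := Finset.mem_filter.1 hy
      have hz1 := Finset.mem_filter.1 hz
      have hy2 := Finset.mem_Ico.1 hy1.1
      have hz2 := Finset.mem_Ico.1 hz1.1
      have h7 : G η m < φ α m := hm2.trans_le (hM m (by omega) α hα)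
      rcases lt_trichotomy y z with h | h | h
      · have := orb_gap (h2 α) (h1 α) hy1.2 hz1.2 hy2.1 h
        omega
      · exact h
      · have := orb_gap (h2 α) (h1 α) hz1.2 hy1.2 hz2.1 h
        omega
    omega
  obtain ⟨y, hy1, hy2, hy3⟩ := hm3 Rb hRb j (by omega)
  rw [hj] at hy2 hy3
  rw [← hs] at hy1
  obtain ⟨n, hn⟩ := hx2 (Nat.pair i0 k + 1) y hy1
  refine ⟨n, ?_⟩
  rw [hn]
  refine ⟨hy2.1, fun p hp hpa => ⟨?_, fun α hα hpf => ?_⟩⟩
  · have := (hy2.2 p hp hpa).1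
    omega
  · by_cases hαδ : α < δ
    · exact (hy2.2 p hp hpa).2 α (Finset.mem_filter.2 ⟨hα, hαδ⟩) hpf
    · refine (hy3 p hp hpa).2 (Finset.mem_biUnion.2 ⟨α, Finset.mem_filter.2 ⟨hα, hαδ⟩, ?_⟩)
      exact Finset.mem_filter.2 ⟨Finset.mem_Ico.2 ⟨(hy2.2 p hp hpa).1, (hy3 p hp hpa).1⟩, hpf.1⟩

/-! ### The family -/

open Cardinal Pool.Agent.Lib_MP_f38362_gt.OpenPoint

theorem exists_reals : ∃ R : W1 → ℕ → Bool, Function.Injective R := by
  have h : #W1 ≤ #(ℕ → Bool) := by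
    rw [mk_W1, ← Cardinal.power_def, Cardinal.mk_bool, Cardinal.mk_nat, Cardinal.two_power_aleph0]
    exact Cardinal.aleph_one_le_continuum
  obtain ⟨j⟩ := h
  exact ⟨j, j.injective⟩

theorem exists_targets :
    ∃ π : W1 → Pt × Finset W1 × ℕ, Function.Surjective π := by
  have hinf : Infinite W1 := by
    rw [Cardinal.infinite_iff, mk_W1]
    exact Cardinal.aleph0_le_aleph 1
  have h : #(Pt × Finset W1 × ℕ) ≤ #W1 := by
    have h1 : ℵ₀ ≤ #W1 := Cardinal.infinite_iff.1 hinf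
    have h2 : #Pt ≤ #W1 := (Cardinal.mk_le_aleph0 (α := Pt)).trans h1
    simp only [Cardinal.mk_prod, Cardinal.lift_id, Cardinal.mk_finset_of_infinite,
      Cardinal.mk_nat]
    rw [Cardinal.mul_eq_left h1 h1 Cardinal.aleph0_ne_zero]
    exact (mul_le_mul' h2 le_rfl).trans (Cardinal.mul_eq_self h1).le
  obtain ⟨j⟩ := h
  have : Nonempty (Pt × Finset W1 × ℕ) := ⟨(zero, ∅, 0)⟩
  exact ⟨Function.invFun j, Function.invFun_surjective j.injective⟩

/-- There is a family with the two properties, in ZFC. -/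
theorem exists_family : ∃ f : W1 → Set (ℕ × ℕ), AD f ∧ Core f := by
  obtain ⟨R, hR⟩ := exists_reals
  by_cases hB : BB W1
  · by_cases hP : PP W1
    · obtain ⟨π, hπ⟩ := exists_targets
      exact ⟨fam (fun _ => univ) (fun _ _ => 0) R, ad_fam (fun _ => Set.infinite_univ) hR,
        core_A π hπ hB hP⟩
    · obtain ⟨u, hu⟩ := exists_luzin countable_Iio_W1 hP
      exact ⟨fam (fun _ => univ) u R, ad_fam (fun _ => Set.infinite_univ) hR,
        core_B countable_Iio_W1 not_countable_W1 hB u hu R⟩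
  · obtain ⟨φ, h1, h2, h3, h4⟩ := exists_unbounded_chain countable_Iio_W1 hB
    exact ⟨fam (fun α => orb (φ α)) (fun _ _ => 0) R, ad_fam (fun α => orb_infinite (h2 α)) hR,
      core_C countable_Iio_W1 not_countable_W1 h1 h2 h3 h4 _ R⟩

end Pool.Agent.Lib_MP_f38362_gt.Regular
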