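import Mathlib
import Pool.Agent.Lib_MP_f38362_gt.Games
import Pool.Agent.Lib_MP_f38362_gt.Ladder

/-!
# A ZFC space on which the dense-families game is undetermined

Let `E ⊆ ω₁` be stationary and co-stationary and choose for each limit `δ ∈ E` a cofinal set
`L δ ⊆ δ` of order type `ω`. The space is the set of finite subsets `x` of `ω₁` with the topology
generated by the sets `{x | a ∈ x}`, `{x | a ∉ x}` and `{x | x ∩ L δ = ∅}`, `δ ∈ E`.
-/

open Set Cardinal MP_f38362_gt

namespace Pool.Agent.Results.MP_f38362_gt.DenseFamilies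

/-- The game `G₁(𝒟,𝒟)` on `X`, where `𝒟` is the collection of all families of open sets with dense
union, is undetermined: ONE plays `𝒰 ∈ 𝒟`, TWO picks `U ∈ 𝒰`, and TWO wins if the union of her
choices is dense. -/
def DenseFamiliesUndetermined (X : Type) [TopologicalSpace X] : Prop :=
  Undetermined (α := Set (Set X)) (β := Set X)
    (fun 𝒰 => (∀ U ∈ 𝒰, IsOpen U) ∧ Dense (⋃₀ 𝒰)) (fun 𝒰 U => U ∈ 𝒰) (fun U => Dense (⋃ n, U n))

theorem denseFamilies_of {X : Type} [TopologicalSpace X] (h1 : ¬ OneWins X) (h2 : ¬ TwoWins X) :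
    DenseFamiliesUndetermined X := by
  have hh : ∀ (a : ℕ → Set (Set X)) (b : ℕ → Set X) n, innings a b n = hist a b n := by
    intro a b n
    induction n with
    | zero => rfl
    | succ n ih => simp only [hist, innings, ih]
  constructor
  · rintro ⟨σ, hσ, hw⟩
    exact h1 ⟨σ, hσ, fun 𝒰 U h3 h4 => hw 𝒰 U (fun n => by rw [hh]; exact h3 n) h4⟩
  · rintro ⟨τ, hτ, hw⟩
    exact h2 ⟨τ, fun h 𝒰 h𝒰 => hτ h 𝒰 h𝒰,
      fun 𝒰 U h3 h4 => hw 𝒰 U h3 (fun n => by rw [hh]; exact h4 n)⟩

/-- **Main theorem** (ZFC). There is a zero-dimensional Hausdorff space of cardinality `ℵ₁` on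
which the game `G₁(𝒟,𝒟)`, `𝒟` = families of open sets with dense union, is undetermined. -/
theorem result :
    ∃ (X : Type) (_ : TopologicalSpace X), T2Space X ∧
      TopologicalSpace.IsTopologicalBasis {U : Set X | IsClopen U} ∧ #X = ℵ₁ ∧
      DenseFamiliesUndetermined X := by
  obtain ⟨X, t, h1, h2, h3, h4, h5⟩ := exists_undetermined
  exact ⟨X, t, h1, h2, h3, denseFamilies_of h4 h5⟩

end Pool.Agent.Results.MP_f38362_gt.DenseFamilies
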