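import Mathlib
import Pool.Agent.Lib_MP_f38362_gt.Games
import Pool.Agent.Lib_MP_f38362_gt.OpenPoint

/-!
# A ZFC space on which the open-point game of Berner and Juhász is undetermined

Let `Z ⊆ ℝ` be a set `{z_α | α < ω₁}` all of whose nonempty relatively open subsets are
uncountable. For the closed unbounded set of `δ < ω₁` for which `{z_α | γ < α < δ}` is dense in `Z`
for all `γ < δ` choose a cofinal `C δ ⊆ δ` of order type `ω` such that every tail of
`{z_α | α ∈ C δ}` is dense in `Z`. The space is `Z` with the topology generated by the sets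
`U \ A`, where `U` is relatively open and `A` is covered by a finite set and finitely many of the
sets `C δ`.
-/

open Set Cardinal MP_f38362_gt

namespace Pool.Agent.Results.MP_f38362_gt.OpenPoint

/-- The open-point game of Berner and Juhász on `X` is undetermined: the first player plays a
nonempty open set, the second player picks a point of it, and the first player wins if the set of
the points picked is dense. -/
def OpenPointUndetermined (X : Type) [TopologicalSpace X] : Prop :=
  Undetermined (α := Set X) (β := X) (fun U => IsOpen U ∧ U.Nonempty) (fun U x => x ∈ U)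
    (fun x => ¬ Dense (range x))

/-- The game `G₁(𝔇,𝔇)` on `X`, where `𝔇` is the collection of all dense subsets, is undetermined:
ONE plays a dense set, TWO picks a point of it, and TWO wins if the set of her points is dense. -/
def DenseSetsUndetermined (X : Type) [TopologicalSpace X] : Prop :=
  Undetermined (α := Set X) (β := X) (fun D => Dense D) (fun D x => x ∈ D)
    (fun x => Dense (range x))

section Transfer

open Pool.Agent.Lib_MP_f38362_gt.OpenPoint (previous)

variable {X : Type}

/-- histories from lists of points: the first player's moves are given by `f` -/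
def build {α β : Type} (f : β → List (α × β) → α) : List β → List (α × β)
  | [] => []
  | x :: s => (f x (build f s), x) :: build f s

theorem innings_build {α β : Type} (f : β → List (α × β) → α) (x : ℕ → β) (n : ℕ) :
    innings (fun n => f (x n) (build f (previous x n))) x n = build f (previous x n) := by
  induction n with
  | zero => rfl
  | succ n ih =>
    simp only [innings, ih]
    rfl

theorem openPoint_of [TopologicalSpace X]
    (h1 : ∀ O : List X → Set X, (∀ s, IsOpen (O s) ∧ (O s).Nonempty) →
      ∃ x : ℕ → X, (∀ n, x n ∈ O (previous x n)) ∧ ¬ Dense (range x))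
    (h2 : ∀ R : List X → Set X, (∀ s, Dense (R s)) →
      ∃ x : ℕ → X, (∀ n, x n ∈ R (previous x n)) ∧ Dense (range x)) :
    OpenPointUndetermined X := by
  classical
  constructor
  · rintro ⟨σ, hσ, hw⟩
    let f : X → List (Set X × X) → Set X := fun _ h => σ h
    obtain ⟨x, hx1, hx2⟩ := h1 (fun s => σ (build f s)) (fun s => hσ _)
    refine hw (fun n => f (x n) (build f (previous x n))) x (fun n => ?_) (fun n => hx1 n) hx2
    rw [innings_build]
  · rintro ⟨τ, hτ, hw⟩
    have key : ∀ (x : X) (h : List (Set X × X)), ∃ U : Set X, (IsOpen U ∧ U.Nonempty) ∧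
        ((∃ V, (IsOpen V ∧ V.Nonempty) ∧ τ h V = x) → τ h U = x) := by
      intro x h
      by_cases hV : ∃ V, (IsOpen V ∧ V.Nonempty) ∧ τ h V = x
      · obtain ⟨V, h3, h4⟩ := hV
        exact ⟨V, h3, fun _ => h4⟩
      · exact ⟨Set.univ, ⟨isOpen_univ, ⟨x, trivial⟩⟩, fun h' => absurd h' hV⟩
    choose f hf1 hf2 using key
    obtain ⟨x, hx1, hx2⟩ := h2 (fun s => {x | ∃ V, (IsOpen V ∧ V.Nonempty) ∧ τ (build f s) V = x})
      (fun s => by
        rw [dense_iff_inter_open]
        intro V hV hne
        exact ⟨τ (build f s) V, hτ _ V ⟨hV, hne⟩, V, ⟨hV, hne⟩, rfl⟩)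
    refine hw (fun n => f (x n) (build f (previous x n))) x (fun n => hf1 _ _) (fun n => ?_) hx2
    rw [innings_build]
    exact (hf2 _ _ (hx1 n)).symm

theorem denseSets_of [TopologicalSpace X]
    (h1 : ∀ O : List X → Set X, (∀ s, IsOpen (O s) ∧ (O s).Nonempty) →
      ∃ x : ℕ → X, (∀ n, x n ∈ O (previous x n)) ∧ ¬ Dense (range x))
    (h2 : ∀ R : List X → Set X, (∀ s, Dense (R s)) →
      ∃ x : ℕ → X, (∀ n, x n ∈ R (previous x n)) ∧ Dense (range x)) :
    DenseSetsUndetermined X := by
  classical
  constructor
  · rintro ⟨σ, hσ, hw⟩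
    let f : X → List (Set X × X) → Set X := fun _ h => σ h
    obtain ⟨x, hx1, hx2⟩ := h2 (fun s => σ (build f s)) (fun s => hσ _)
    refine hw (fun n => f (x n) (build f (previous x n))) x (fun n => ?_) (fun n => hx1 n) hx2
    rw [innings_build]
  · rintro ⟨τ, hτ, hw⟩
    -- a point is a possible answer at the history `h`
    let P : List (Set X × X) → X → Prop := fun h x => ∃ D, Dense D ∧ τ h D = x
    have key : ∀ (x : X) (h : List (Set X × X)), ∃ D : Set X, Dense D ∧
        (P h x → τ h D = x) := by
      intro x h
      by_cases hV : P h x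
      · obtain ⟨V, h3, h4⟩ := hV
        exact ⟨V, h3, fun _ => h4⟩
      · exact ⟨Set.univ, dense_univ, fun h' => absurd h' hV⟩
    choose f hf1 hf2 using key
    have hO : ∀ h : List (Set X × X), ∃ U : Set X, (IsOpen U ∧ U.Nonempty) ∧ ∀ x ∈ U, P h x := by
      intro h
      by_contra hcon
      push Not at hcon
      have hD : Dense {x | ¬ P h x} := by
        rw [dense_iff_inter_open]
        intro U hU hne
        obtain ⟨x, hx, hxP⟩ := hcon U ⟨hU, hne⟩
        exact ⟨x, hx, hxP⟩
      exact hτ h _ hD ⟨_, hD, rfl⟩
    choose O hO1 hO2 using hO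
    obtain ⟨x, hx1, hx2⟩ := h1 (fun s => O (build f s)) (fun s => hO1 _)
    refine hx2 (hw (fun n => f (x n) (build f (previous x n))) x (fun n => hf1 _ _) (fun n => ?_))
    rw [innings_build]
    exact (hf2 _ _ (hO2 _ _ (hx1 n))).symm

end Transfer

/-- **Main theorem** (ZFC). There is a Hausdorff space, even one with a continuous injection into
the real line, on which the open-point game of Berner and Juhász and the dual game `G₁(𝔇,𝔇)`,
`𝔇` = dense subsets, are undetermined. -/
theorem result :
    ∃ (X : Type) (_ : TopologicalSpace X), T2Space X ∧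
      (∃ f : X → ℝ, Continuous f ∧ Function.Injective f) ∧
      OpenPointUndetermined X ∧ DenseSetsUndetermined X := by
  obtain ⟨X, t, ⟨f, hf1, hf2⟩, h1, h2⟩ := Pool.Agent.Lib_MP_f38362_gt.OpenPoint.exists_space
  exact ⟨X, t, T2Space.of_injective_continuous hf2 hf1, ⟨f, hf1, hf2⟩, openPoint_of h1 h2,
    denseSets_of h1 h2⟩

end Pool.Agent.Results.MP_f38362_gt.OpenPoint
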